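import Mathlib

set_option autoImplicit false

open Finset

namespace H852OF

section defs
variable {E κ : Type} [Fintype E] [DecidableEq E] [DecidableEq κ]

/-- the class of `e` for the key `K` -/
def cl (K : E → κ) (e : E) : Finset E := univ.filter (fun e' => K e' = K e)

/-- the mean of `f` over the class of `e` -/
noncomputable def av (K : E → κ) (f : E → ℝ) (e : E) : ℝ :=
  (∑ e' ∈ cl K e, f e') / ((cl K e).card : ℝ)

/-- number of elements with label `x` in the class of `e` -/
def cnt (K : E → κ) (L : E → ℕ) (e : E) (x : ℕ) : ℕ :=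
  ((cl K e).filter (fun e' => L e' = x)).card

/-- labels carrying at least the fraction `b^(-2)` of the class of `e` -/
def heavy (b : ℕ) (K : E → κ) (L : E → ℕ) (e : E) : Finset ℕ :=
  (range b).filter (fun x => (cl K e).card ≤ b ^ 2 * cnt K L e x)

/-- indicator function of `T = t` -/
noncomputable def ind (T : E → Finset ℕ) (t : Finset ℕ) (e : E) : ℝ := if T e = t then 1 else 0

/-- total discrepancy of the types `T` between the keys `K0` and `K1` -/
noncomputable def disc (b : ℕ) (K1 K0 : E → κ) (T : E → Finset ℕ) : ℝ :=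
  ∑ t ∈ (range b).powerset, ∑ e, |av K1 (ind T t) e - av K0 (ind T t) e|

open Classical in
/-- one cleaning step -/
noncomputable def stepU {κ' : Type} (K : E → κ) (L : E → ℕ) (K' : E → κ') (L' : E → ℕ)
    (S S' : Finset ℕ) (U : Finset E) : Finset E :=
  U.filter (fun e => (∀ x ∈ S, ∃ e' ∈ U, K e' = K e ∧ L e' = x) ∧
    (∀ z ∈ S', ∃ e' ∈ U, K' e' = K' e ∧ L' e' = z))

end defs

end H852OF
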