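import Mathlib
import Pool.Agent.Helper852.OF.Defs

set_option autoImplicit false

open Finset

namespace H852OF



theorem av_abs_le {E κ : Type} [Fintype E] [DecidableEq E] [DecidableEq κ] (K : E → κ)
    (f : E → ℝ) (hf : ∀ e, |f e| ≤ 1) (e : E) : |av K f e| ≤ 1 := by
  have hmem : e ∈ cl K e := Finset.mem_filter.2 ⟨Finset.mem_univ _, rfl⟩
  have hpos : (0 : ℝ) < ((cl K e).card : ℝ) := by
    exact_mod_cast Finset.card_pos.2 ⟨e, hmem⟩
  unfold av
  rw [abs_div, abs_of_pos hpos, div_le_one hpos]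
  calc |∑ e' ∈ cl K e, f e'| ≤ ∑ e' ∈ cl K e, |f e'| := Finset.abs_sum_le_sum_abs _ _
    _ ≤ ∑ e' ∈ cl K e, (1 : ℝ) := Finset.sum_le_sum fun e' _ => hf e'
    _ = ((cl K e).card : ℝ) := by simp


end H852OF
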