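import Mathlib
import Pool.Agent.Helper852.OF.Defs

set_option autoImplicit false

open Finset

namespace H852OF



theorem bad_le_class {E κ : Type} [Fintype E] [DecidableEq E] [DecidableEq κ] (b : ℕ)
    (K1 K0 : E → κ) (L : E → ℕ) (hK : ∀ e e', K1 e = K1 e' ↔ (K0 e = K0 e' ∧ L e = L e'))
    (T : E → Finset ℕ) (S S' : Finset ℕ) (Es U : Finset E)
    (hEs : ∀ e, e ∈ Es ↔ (heavy b K0 L e = S ∧ T e = S')) (k : κ) (ρ B D : Finset E)
    (hρ : ∀ e, e ∈ ρ ↔ K0 e = k)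
    (hB : ∀ e ∈ B, e ∈ Es ∧ K0 e = k ∧ ∃ x ∈ S, ∀ e' ∈ U, K0 e' = K0 e → L e' ≠ x)
    (hD : ∀ e, e ∈ Es → e ∉ U → K0 e = k → e ∈ D) :
    (B.card : ℝ) ≤ (b : ℝ) ^ 2 * ((D.card : ℝ) +
      ∑ e ∈ ρ, |av K1 (ind T S') e - av K0 (ind T S') e|) := by
  classical
  rcases B.eq_empty_or_nonempty with hB0 | ⟨e, he⟩
  · rw [hB0, card_empty, Nat.cast_zero]
    exact mul_nonneg (sq_nonneg _) (add_nonneg (Nat.cast_nonneg _)
      (sum_nonneg fun _ _ => abs_nonneg _))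
  obtain ⟨heE, hek, x, hxS, hxU⟩ := hB e he
  have hcl' : ∀ e' ∈ ρ, cl K0 e' = ρ := by
    intro e' he'
    ext e''
    rw [cl, mem_filter, hρ, (hρ e').1 he']
    simp
  have heρ : e ∈ ρ := (hρ e).2 hek
  have hcl : cl K0 e = ρ := hcl' e heρ
  have hheavy : heavy b K0 L e = S := ((hEs e).1 heE).1
  have hheavy' : ∀ e' ∈ ρ, heavy b K0 L e' = S := by
    intro e' he'
    rw [← hheavy]
    unfold heavy cnt
    rw [hcl' e' he', hcl]
  have hEsρ : ∀ e' ∈ ρ, (e' ∈ Es ↔ T e' = S') := by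
    intro e' he'
    rw [hEs, hheavy' e' he']
    simp
  have hf : ∀ s : Finset E, ∑ e' ∈ s, ind T S' e' =
      ((s.filter (fun e' => T e' = S')).card : ℝ) := by
    intro s
    unfold ind
    rw [Finset.sum_boole]
  have hxh : x ∈ heavy b K0 L e := hheavy ▸ hxS
  have hN : ρ.card ≤ b ^ 2 * (ρ.filter (fun e' => L e' = x)).card := by
    have h := (mem_filter.1 hxh).2
    unfold cnt at h
    rwa [hcl] at h
  set ρx := ρ.filter (fun e' => L e' = x) with hρx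
  have hNpos : 0 < ρ.card := card_pos.2 ⟨e, heρ⟩
  have hNx : 0 < ρx.card := by
    by_contra h
    have h0 : ρx.card = 0 := by omega
    rw [h0, mul_zero] at hN
    omega
  have hNpos' : (0 : ℝ) < ρ.card := Nat.cast_pos.2 hNpos
  have hNx' : (0 : ℝ) < ρx.card := Nat.cast_pos.2 hNx
  have hclx : ∀ e' ∈ ρx, cl K1 e' = ρx := by
    intro e' he'
    ext e''
    rw [cl, mem_filter, hρx, mem_filter, hρ, hK, (hρ e').1 (mem_filter.1 he').1,
      (mem_filter.1 he').2]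
    simp
  obtain ⟨q, hq⟩ : ∃ q : ℝ, q = (∑ e'' ∈ ρ, ind T S' e'') / (ρ.card : ℝ) := ⟨_, rfl⟩
  obtain ⟨qx, hqx⟩ : ∃ qx : ℝ, qx = (∑ e'' ∈ ρx, ind T S' e'') / (ρx.card : ℝ) := ⟨_, rfl⟩
  have hav0 : ∀ e' ∈ ρ, av K0 (ind T S') e' = q := by
    intro e' he'
    unfold av
    rw [hcl' e' he', hq]
  have hav1 : ∀ e' ∈ ρx, av K1 (ind T S') e' = qx := by
    intro e' he'
    unfold av
    rw [hclx e' he', hqx]
  have hq0 : 0 ≤ q := by
    rw [hq, hf]
    positivity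
  have h1 : (B.card : ℝ) ≤ q * ρ.card := by
    rw [hq, div_mul_cancel₀ _ hNpos'.ne', hf]
    refine Nat.cast_le.2 (card_le_card fun e' he' => ?_)
    obtain ⟨a1, a2, -⟩ := hB e' he'
    have a3 := (hρ e').2 a2
    exact mem_filter.2 ⟨a3, (hEsρ e' a3).1 a1⟩
  have h2 : q * ρ.card ≤ q * ((b : ℝ) ^ 2 * ρx.card) := by
    refine mul_le_mul_of_nonneg_left ?_ hq0
    exact_mod_cast hN
  have h3 : qx * ρx.card ≤ D.card := by
    rw [hqx, div_mul_cancel₀ _ hNx'.ne', hf]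
    refine Nat.cast_le.2 (card_le_card fun e' he' => ?_)
    obtain ⟨a1, a2⟩ := mem_filter.1 he'
    obtain ⟨a3, a4⟩ := mem_filter.1 a1
    refine hD e' ((hEsρ e' a3).2 a2) (fun hU' => ?_) ((hρ e').1 a3)
    exact hxU e' hU' (((hρ e').1 a3).trans hek.symm) a4
  have h4 : |qx - q| * ρx.card ≤ ∑ e ∈ ρ, |av K1 (ind T S') e - av K0 (ind T S') e| := by
    have h5 : ∑ e' ∈ ρx, |av K1 (ind T S') e' - av K0 (ind T S') e'| = |qx - q| * ρx.card := by
      rw [sum_congr rfl (fun e' he' => by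
        rw [hav1 e' he', hav0 e' (mem_filter.1 he').1] : ∀ e' ∈ ρx,
          |av K1 (ind T S') e' - av K0 (ind T S') e'| = |qx - q|), sum_const, nsmul_eq_mul,
        mul_comm]
    rw [← h5]
    exact sum_le_sum_of_subset_of_nonneg (filter_subset _ _) (fun _ _ _ => abs_nonneg _)
  have h5 : q * ((b : ℝ) ^ 2 * ρx.card) ≤
      (b : ℝ) ^ 2 * (qx * ρx.card + |qx - q| * ρx.card) := by
    have h6 : q ≤ qx + |qx - q| := by linarith [neg_abs_le (qx - q)]
    calc q * ((b : ℝ) ^ 2 * ρx.card) ≤ (qx + |qx - q|) * ((b : ℝ) ^ 2 * ρx.card) :=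
          mul_le_mul_of_nonneg_right h6 (by positivity)
      _ = _ := by ring
  calc (B.card : ℝ) ≤ (b : ℝ) ^ 2 * (qx * ρx.card + |qx - q| * ρx.card) := by linarith
    _ ≤ _ := mul_le_mul_of_nonneg_left (add_le_add h3 h4) (sq_nonneg _)

open Classical in
theorem bad_le {E κ : Type} [Fintype E] [DecidableEq E] [DecidableEq κ] (b : ℕ) (hb : 1 ≤ b)
    (K1 K0 : E → κ) (L : E → ℕ) (hK : ∀ e e', K1 e = K1 e' ↔ (K0 e = K0 e' ∧ L e = L e'))
    (T : E → Finset ℕ) (S S' : Finset ℕ) (hS' : S' ⊆ range b) (Es U : Finset E)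
    (hEs : ∀ e, e ∈ Es ↔ (heavy b K0 L e = S ∧ T e = S')) (hU : U ⊆ Es) :
    ((Es.filter (fun e => ∃ x ∈ S, ∀ e' ∈ U, K0 e' = K0 e → L e' ≠ x)).card : ℝ) ≤
      (b : ℝ) ^ 2 * (((Es \ U).card : ℝ) + disc b K1 K0 T) := by
  set Bad := Es.filter (fun e => ∃ x ∈ S, ∀ e' ∈ U, K0 e' = K0 e → L e' ≠ x) with hBad
  have s1 : (Bad.card : ℝ) = ∑ k ∈ univ.image K0,
      ((Bad.filter (fun e => K0 e = k)).card : ℝ) := by
    rw [← Nat.cast_sum]
    congr 1
    exact card_eq_sum_card_fiberwise (fun e _ => mem_image_of_mem _ (mem_univ e))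
  have s2 : ((Es \ U).card : ℝ) = ∑ k ∈ univ.image K0,
      (((Es \ U).filter (fun e => K0 e = k)).card : ℝ) := by
    rw [← Nat.cast_sum]
    congr 1
    exact card_eq_sum_card_fiberwise (fun e _ => mem_image_of_mem _ (mem_univ e))
  have s3 : ∑ e, |av K1 (ind T S') e - av K0 (ind T S') e| = ∑ k ∈ univ.image K0,
      ∑ e ∈ univ.filter (fun e => K0 e = k),
        |av K1 (ind T S') e - av K0 (ind T S') e| :=
    (sum_fiberwise_of_maps_to (fun e _ => mem_image_of_mem _ (mem_univ e)) _).symm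
  have s4 : ∑ e, |av K1 (ind T S') e - av K0 (ind T S') e| ≤ disc b K1 K0 T := by
    unfold disc
    exact single_le_sum (f := fun t => ∑ e, |av K1 (ind T t) e - av K0 (ind T t) e|)
      (fun _ _ => sum_nonneg fun _ _ => abs_nonneg _) (mem_powerset.2 hS')
  calc (Bad.card : ℝ) = ∑ k ∈ univ.image K0,
      ((Bad.filter (fun e => K0 e = k)).card : ℝ) := s1
    _ ≤ ∑ k ∈ univ.image K0, (b : ℝ) ^ 2 *
        ((((Es \ U).filter (fun e => K0 e = k)).card : ℝ) +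
          ∑ e ∈ univ.filter (fun e => K0 e = k),
            |av K1 (ind T S') e - av K0 (ind T S') e|) := by
        refine sum_le_sum fun k _ => ?_
        refine bad_le_class b K1 K0 L hK T S S' Es U hEs k _ _ _ ?_ ?_ ?_
        · intro e
          simp
        · intro e he
          obtain ⟨a1, a2⟩ := mem_filter.1 he
          obtain ⟨a3, a4⟩ := mem_filter.1 a1
          exact ⟨a3, a2, a4⟩
        · intro e h1 h2 h3
          exact mem_filter.2 ⟨mem_sdiff.2 ⟨h1, h2⟩, h3⟩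
    _ = (b : ℝ) ^ 2 * (((Es \ U).card : ℝ) +
          ∑ e, |av K1 (ind T S') e - av K0 (ind T S') e|) := by
        rw [← mul_sum, sum_add_distrib, ← s2, ← s3]
    _ ≤ _ := by
        refine mul_le_mul_of_nonneg_left ?_ (sq_nonneg _)
        linarith


end H852OF
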