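import Mathlib
import Pool.Agent.Helper852.OF.Defs

set_option autoImplicit false

open Finset

namespace H852OF



theorem pyth_key {E κ : Type} [Fintype E] [DecidableEq E] [DecidableEq κ] (K : E → κ)
    (f g : E → ℝ) (hg : ∀ e e', K e = K e' → g e = g e') :
    ∑ e, av K f e * g e = ∑ e, f e * g e := by
  have h1 : ∀ e, av K f e * g e = ∑ e', if K e' = K e then f e' * g e' / ((cl K e').card : ℝ) else 0 := by
    intro e
    unfold av
    rw [← Finset.sum_filter]
    have h2 : ∀ e' ∈ univ.filter (fun e' => K e' = K e), f e' * g e' / ((cl K e').card : ℝ) =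
        f e' * (g e / ((cl K e).card : ℝ)) := by
      intro e' he'
      have h3 : K e' = K e := (Finset.mem_filter.mp he').2
      have h4 : cl K e' = cl K e := by
        unfold cl
        rw [h3]
      rw [h4, hg e' e h3]
      ring
    rw [Finset.sum_congr rfl h2, ← Finset.sum_mul]
    unfold cl
    ring
  simp_rw [h1]
  rw [Finset.sum_comm]
  apply Finset.sum_congr rfl
  intro e' _
  rw [← Finset.sum_filter, Finset.sum_const, nsmul_eq_mul]
  have h5 : (univ.filter (fun e => K e' = K e)) = cl K e' := by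
    unfold cl
    ext x
    simp [eq_comm]
  rw [h5]
  have h6 : ((cl K e').card : ℝ) ≠ 0 := by
    have : 0 < (cl K e').card := Finset.card_pos.mpr ⟨e', by simp [cl]⟩
    exact_mod_cast this.ne'
  field_simp

theorem pyth_const {E κ : Type} [Fintype E] [DecidableEq E] [DecidableEq κ] (K : E → κ)
    (f : E → ℝ) (e e' : E) (h : K e = K e') : av K f e = av K f e' := by
  unfold av cl
  rw [h]

theorem pyth {E κ : Type} [Fintype E] [DecidableEq E] [DecidableEq κ] (K1 K0 : E → κ)
    (h : ∀ e e', K1 e = K1 e' → K0 e = K0 e') (f : E → ℝ) :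
    ∑ e, (av K1 f e - av K0 f e) ^ 2 = ∑ e, (av K1 f e) ^ 2 - ∑ e, (av K0 f e) ^ 2 := by
  have h1 := pyth_key K1 f (av K0 f) (fun e e' he => pyth_const K0 f e e' (h e e' he))
  have h2 := pyth_key K0 f (av K0 f) (fun e e' he => pyth_const K0 f e e' he)
  have h3 : ∀ e, (av K1 f e - av K0 f e) ^ 2 = av K1 f e ^ 2 - 2 * (av K1 f e * av K0 f e) + av K0 f e * av K0 f e := by
    intro e; ring
  simp_rw [h3]
  rw [Finset.sum_add_distrib, Finset.sum_sub_distrib, ← Finset.mul_sum, h1, h2]
  have h4 : ∑ e, av K0 f e ^ 2 = ∑ e, f e * av K0 f e := by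
    rw [← h2]
    apply Finset.sum_congr rfl
    intro e _
    ring
  rw [h4]
  ring


end H852OF
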