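import Mathlib
import Pool.Agent.Helper852.OF.Defs
import Pool.Agent.Helper852.OF.Pyth
import Pool.Agent.Helper852.OF.AvAbsLe

set_option autoImplicit false

open Finset

namespace H852OF





theorem energy {E κ : Type} [Fintype E] [DecidableEq E] [DecidableEq κ] (K : ℕ → E → κ)
    (hK : ∀ k e e', K (k+1) e = K (k+1) e' → K k e = K k e') (f : E → ℝ) (hf : ∀ e, |f e| ≤ 1)
    (m : ℕ) :
    ∑ k ∈ range m, ∑ e, (av (K (k+1)) f e - av (K k) f e) ^ 2 ≤ (Fintype.card E : ℝ) := by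
  have h1 : ∑ k ∈ range m, ∑ e, (av (K (k+1)) f e - av (K k) f e) ^ 2 =
      ∑ k ∈ range m, (∑ e, (av (K (k+1)) f e) ^ 2 - ∑ e, (av (K k) f e) ^ 2) :=
    Finset.sum_congr rfl (fun k _ => pyth (K (k+1)) (K k) (hK k) f)
  rw [h1, Finset.sum_range_sub (fun k => ∑ e, (av (K k) f e) ^ 2)]
  have h2 : ∑ e, (av (K m) f e) ^ 2 ≤ ∑ _e : E, (1 : ℝ) := by
    apply Finset.sum_le_sum
    intro e _
    have := av_abs_le (K m) f hf e
    rw [← sq_abs]
    exact pow_le_one₀ (abs_nonneg _) this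
  have h3 : ∑ _e : E, (1 : ℝ) = (Fintype.card E : ℝ) := by
    simp
  have h4 : 0 ≤ ∑ e, (av (K 0) f e) ^ 2 := Finset.sum_nonneg (fun e _ => sq_nonneg _)
  linarith


end H852OF
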