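import Mathlib
import Pool.Agent.Helper852.OF.Defs
import Pool.Agent.Helper852.OF.Energy

set_option autoImplicit false

open Finset

namespace H852OF




theorem disc_sq_ind {E : Type} [Fintype E] [DecidableEq E] (T : E → Finset ℕ) (t : Finset ℕ)
    (e : E) : |ind T t e| ≤ 1 := by
  unfold ind
  split_ifs
  · rw [abs_one]
  · rw [abs_zero]; exact zero_le_one

theorem disc_sq_one {E κ : Type} [Fintype E] [DecidableEq E] [DecidableEq κ] (b : ℕ)
    (K1 K0 : E → κ) (T : E → Finset ℕ) :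
    (disc b K1 K0 T) ^ 2 ≤ ((2 ^ b : ℝ) * (Fintype.card E : ℝ)) *
      ∑ t ∈ (range b).powerset, ∑ e, (av K1 (ind T t) e - av K0 (ind T t) e) ^ 2 := by
  unfold disc
  refine (sq_sum_le_card_mul_sum_sq).trans ?_
  have hc : (((range b).powerset.card : ℕ) : ℝ) = 2 ^ b := by
    rw [Finset.card_powerset, Finset.card_range]; push_cast; rfl
  rw [hc, mul_assoc]
  refine mul_le_mul_of_nonneg_left ?_ (by positivity)
  rw [Finset.mul_sum]
  refine Finset.sum_le_sum fun t _ => ?_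
  refine (sq_sum_le_card_mul_sum_sq).trans ?_
  rw [Finset.card_univ]
  refine mul_le_mul_of_nonneg_left ?_ (Nat.cast_nonneg _)
  refine Finset.sum_le_sum fun e _ => ?_
  rw [sq_abs]

theorem disc_sq {E κ : Type} [Fintype E] [DecidableEq E] [DecidableEq κ] (b : ℕ) (K : ℕ → E → κ)
    (hK : ∀ k e e', K (k+1) e = K (k+1) e' → K k e = K k e') (T : E → Finset ℕ) (m : ℕ) :
    ∑ k ∈ range m, (disc b (K (k+1)) (K k) T) ^ 2 ≤ ((2 ^ b : ℝ) * (Fintype.card E : ℝ)) ^ 2 := by
  have h1 : ∑ k ∈ range m, (disc b (K (k+1)) (K k) T) ^ 2 ≤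
      ∑ k ∈ range m, ((2 ^ b : ℝ) * (Fintype.card E : ℝ)) *
      ∑ t ∈ (range b).powerset, ∑ e, (av (K (k+1)) (ind T t) e - av (K k) (ind T t) e) ^ 2 :=
    Finset.sum_le_sum fun k _ => disc_sq_one b (K (k+1)) (K k) T
  refine h1.trans ?_
  rw [← Finset.mul_sum, Finset.sum_comm, sq]
  refine mul_le_mul_of_nonneg_left ?_ (by positivity)
  have h2 : ∑ t ∈ (range b).powerset, ∑ k ∈ range m,
      ∑ e, (av (K (k+1)) (ind T t) e - av (K k) (ind T t) e) ^ 2 ≤
      ∑ _t ∈ (range b).powerset, (Fintype.card E : ℝ) :=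
    Finset.sum_le_sum fun t _ => energy K hK (ind T t) (disc_sq_ind T t) m
  refine h2.trans ?_
  rw [Finset.sum_const, Finset.card_powerset, Finset.card_range, nsmul_eq_mul]
  push_cast
  exact le_rfl


end H852OF
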