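import Mathlib
import Pool.Agent.Helper852.OF.Defs
import Pool.Agent.Helper852.OF.DiscSq

set_option autoImplicit false

open Finset

namespace H852OF




/-- choice of the pair of levels and of the types -/
theorem choice (b s : ℕ) (hb : 1 ≤ b) (c ζ : ℝ) (hc : 0 < c) (hζ : 0 < ζ) :
    ∃ m0 : ℕ, ∀ m : ℕ, m0 ≤ m → ∀ (E κ κ' : Type) [Fintype E] [DecidableEq E] [DecidableEq κ]
      [DecidableEq κ'] [Nonempty E]
      (K : ℕ → E → κ) (L : ℕ → E → ℕ)
      (_ : ∀ k e e', K (k+1) e = K (k+1) e' ↔ (K k e = K k e' ∧ L k e = L k e'))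
      (K' : ℕ → E → κ') (L' : ℕ → E → ℕ)
      (_ : ∀ k e e', K' (k+1) e = K' (k+1) e' ↔ (K' k e = K' k e' ∧ L' k e = L' k e'))
      (_ : c * (m : ℝ) ^ 2 * (Fintype.card E : ℝ) ≤ ∑ l ∈ range m, ∑ k ∈ range m,
        (((univ : Finset E).filter (fun e => s ≤ (heavy b (K k) (L k) e).card ∧
          s ≤ (heavy b (K' l) (L' l) e).card)).card : ℝ)),
      ∃ l k : ℕ, l < m ∧ k < m ∧ l ≠ k ∧ ∃ S S' : Finset ℕ, S ⊆ range b ∧ S' ⊆ range b ∧
        s ≤ S.card ∧ s ≤ S'.card ∧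
        c / 2 / 4 ^ b * (Fintype.card E : ℝ) ≤ (((univ : Finset E).filter (fun e =>
          heavy b (K k) (L k) e = S ∧ heavy b (K' l) (L' l) e = S')).card : ℝ) ∧
        disc b (K (k+1)) (K k) (heavy b (K' l) (L' l)) ≤ ζ * (Fintype.card E : ℝ) ∧
        disc b (K' (l+1)) (K' l) (heavy b (K k) (L k)) ≤ ζ * (Fintype.card E : ℝ) := by
  obtain ⟨X, hX⟩ : ∃ X : ℝ, X = 1 + 2 * ((2 ^ b : ℝ) ^ 2 / ζ ^ 2) := ⟨_, rfl⟩
  refine ⟨⌊2 / c * X⌋₊ + 1, ?_⟩
  intro m hm E κ κ' _ _ _ _ _ K L hK K' L' hK' hsum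
  have hX0 : 0 < X := by rw [hX]; positivity
  have hmX : X < c / 2 * m := by
    have h1 : 2 / c * X < (⌊2 / c * X⌋₊ : ℝ) + 1 := Nat.lt_floor_add_one _
    have h2 : ((⌊2 / c * X⌋₊ + 1 : ℕ) : ℝ) ≤ (m : ℝ) := by exact_mod_cast hm
    push_cast at h2
    have h3 : 2 / c * X < m := h1.trans_le h2
    have h4 := mul_lt_mul_of_pos_left h3 (show 0 < c / 2 by positivity)
    have h5 : c / 2 * (2 / c * X) = X := by field_simp
    linarith
  have hm0 : (0 : ℝ) < m := by
    by_contra hcon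
    have h1 : (m : ℝ) ≤ 0 := not_lt.1 hcon
    have h2 : c / 2 * m ≤ 0 := mul_nonpos_of_nonneg_of_nonpos (by positivity) h1
    linarith
  obtain ⟨N, hN⟩ : ∃ N : ℝ, N = (Fintype.card E : ℝ) := ⟨_, rfl⟩
  have hN0 : 0 < N := by
    rw [hN]
    exact_mod_cast Fintype.card_pos
  obtain ⟨D1, hD1⟩ : ∃ D1 : ℕ → ℕ → ℝ, ∀ l k, D1 l k =
      disc b (K (k+1)) (K k) (heavy b (K' l) (L' l)) := ⟨_, fun _ _ => rfl⟩
  obtain ⟨D2, hD2⟩ : ∃ D2 : ℕ → ℕ → ℝ, ∀ l k, D2 l k =
      disc b (K' (l+1)) (K' l) (heavy b (K k) (L k)) := ⟨_, fun _ _ => rfl⟩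
  have hs1 : ∀ l, ∑ k ∈ range m, (D1 l k) ^ 2 ≤ ((2 ^ b : ℝ) * N) ^ 2 := by
    intro l
    simp only [hD1]
    rw [hN]
    exact disc_sq b K (fun k e e' h => ((hK k e e').1 h).1) (heavy b (K' l) (L' l)) m
  have hs2 : ∀ k, ∑ l ∈ range m, (D2 l k) ^ 2 ≤ ((2 ^ b : ℝ) * N) ^ 2 := by
    intro k
    simp only [hD2]
    rw [hN]
    exact disc_sq b K' (fun l e e' h => ((hK' l e e').1 h).1) (heavy b (K k) (L k)) m
  obtain ⟨bo, hbo⟩ : ∃ bo : ℕ → ℕ → ℝ, ∀ l k, bo l k =
      (((univ : Finset E).filter (fun e => s ≤ (heavy b (K k) (L k) e).card ∧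
          s ≤ (heavy b (K' l) (L' l) e).card)).card : ℝ) := ⟨_, fun _ _ => rfl⟩
  have hboN : ∀ l k, bo l k ≤ N := by
    intro l k
    rw [hbo, hN]
    exact_mod_cast Finset.card_le_univ _
  have hsum' : c * (m : ℝ) ^ 2 * N ≤ ∑ l ∈ range m, ∑ k ∈ range m, bo l k := by
    simp only [hbo]
    rw [hN]
    exact hsum
  have hex : ∃ l k : ℕ, l < m ∧ k < m ∧ l ≠ k ∧ c / 2 * N ≤ bo l k ∧ D1 l k ≤ ζ * N ∧
      D2 l k ≤ ζ * N := by
    by_contra hcon
    push Not at hcon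
    have hpt : ∀ l ∈ range m, ∀ k ∈ range m, bo l k ≤ N * (if l = k then 1 else 0) +
        N * ((D1 l k) ^ 2 / (ζ * N) ^ 2) + N * ((D2 l k) ^ 2 / (ζ * N) ^ 2) + c / 2 * N := by
      intro l hl k hk
      have e1 : 0 ≤ N * ((D1 l k) ^ 2 / (ζ * N) ^ 2) := by positivity
      have e2 : 0 ≤ N * ((D2 l k) ^ 2 / (ζ * N) ^ 2) := by positivity
      have e3 : 0 < c / 2 * N := by positivity
      have e4 : 0 ≤ N * (if l = k then (1 : ℝ) else 0) := by
        split_ifs
        · linarith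
        · simp
      have hbig : ∀ D : ℝ, ζ * N < D → N ≤ N * (D ^ 2 / (ζ * N) ^ 2) := by
        intro D hD
        have h0 : 0 < ζ * N := by positivity
        have h1 : 1 ≤ D ^ 2 / (ζ * N) ^ 2 := by
          rw [le_div_iff₀ (by positivity), one_mul]
          exact pow_le_pow_left₀ h0.le hD.le 2
        calc N = N * 1 := (mul_one N).symm
          _ ≤ _ := mul_le_mul_of_nonneg_left h1 hN0.le
      by_cases hlk : l = k
      · rw [if_pos hlk, mul_one]
        have := hboN l k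
        linarith
      · by_cases h1 : D1 l k ≤ ζ * N
        · by_cases h2 : D2 l k ≤ ζ * N
          · have h3 : bo l k < c / 2 * N := by
              by_contra h4
              exact absurd h2 (not_le.2 (hcon l k (Finset.mem_range.1 hl) (Finset.mem_range.1 hk)
                hlk (not_lt.1 h4) h1))
            linarith
          · have h3 := hbig _ (not_le.1 h2)
            have := hboN l k
            linarith
        · have h3 := hbig _ (not_le.1 h1)
          have := hboN l k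
          linarith
    have hS : ∑ l ∈ range m, ∑ k ∈ range m, bo l k ≤ ∑ l ∈ range m, ∑ k ∈ range m,
        (N * (if l = k then 1 else 0) +
        N * ((D1 l k) ^ 2 / (ζ * N) ^ 2) + N * ((D2 l k) ^ 2 / (ζ * N) ^ 2) + c / 2 * N) :=
      Finset.sum_le_sum (fun l hl => Finset.sum_le_sum (fun k hk => hpt l hl k hk))
    simp only [Finset.sum_add_distrib] at hS
    have t1 : ∑ l ∈ range m, ∑ k ∈ range m, N * (if l = k then (1 : ℝ) else 0) = m * N := by
      have h1 : ∀ l ∈ range m, ∑ k ∈ range m, N * (if l = k then (1 : ℝ) else 0) = N := by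
        intro l hl
        rw [← Finset.mul_sum, Finset.sum_ite_eq, if_pos hl, mul_one]
      rw [Finset.sum_congr rfl h1, Finset.sum_const, Finset.card_range, nsmul_eq_mul]
    have t2 : ∑ l ∈ range m, ∑ k ∈ range m, N * ((D1 l k) ^ 2 / (ζ * N) ^ 2) ≤
        m * (N * (((2 ^ b : ℝ) * N) ^ 2 / (ζ * N) ^ 2)) := by
      have h1 : ∀ l ∈ range m, ∑ k ∈ range m, N * ((D1 l k) ^ 2 / (ζ * N) ^ 2) ≤
          N * (((2 ^ b : ℝ) * N) ^ 2 / (ζ * N) ^ 2) := by
        intro l _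
        rw [← Finset.mul_sum, ← Finset.sum_div]
        refine mul_le_mul_of_nonneg_left ?_ hN0.le
        exact div_le_div_of_nonneg_right (hs1 l) (by positivity)
      refine (Finset.sum_le_sum h1).trans (le_of_eq ?_)
      rw [Finset.sum_const, Finset.card_range, nsmul_eq_mul]
    have t3 : ∑ l ∈ range m, ∑ k ∈ range m, N * ((D2 l k) ^ 2 / (ζ * N) ^ 2) ≤
        m * (N * (((2 ^ b : ℝ) * N) ^ 2 / (ζ * N) ^ 2)) := by
      rw [Finset.sum_comm]
      have h1 : ∀ k ∈ range m, ∑ l ∈ range m, N * ((D2 l k) ^ 2 / (ζ * N) ^ 2) ≤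
          N * (((2 ^ b : ℝ) * N) ^ 2 / (ζ * N) ^ 2) := by
        intro k _
        rw [← Finset.mul_sum, ← Finset.sum_div]
        refine mul_le_mul_of_nonneg_left ?_ hN0.le
        exact div_le_div_of_nonneg_right (hs2 k) (by positivity)
      refine (Finset.sum_le_sum h1).trans (le_of_eq ?_)
      rw [Finset.sum_const, Finset.card_range, nsmul_eq_mul]
    have t4 : ∑ l ∈ range m, ∑ k ∈ range m, c / 2 * N = m * (m * (c / 2 * N)) := by
      rw [Finset.sum_const, Finset.sum_const, Finset.card_range, nsmul_eq_mul, nsmul_eq_mul]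
    have t5 : N * (((2 ^ b : ℝ) * N) ^ 2 / (ζ * N) ^ 2) = N * ((2 ^ b : ℝ) ^ 2 / ζ ^ 2) := by
      have h1 : N ≠ 0 := hN0.ne'
      have h2 : ζ ≠ 0 := hζ.ne'
      congr 1
      field_simp
    rw [t5] at t2 t3
    rw [t1, t4] at hS
    have t6 : c * (m : ℝ) ^ 2 * N ≤ m * N + m * (N * ((2 ^ b : ℝ) ^ 2 / ζ ^ 2)) +
        m * (N * ((2 ^ b : ℝ) ^ 2 / ζ ^ 2)) + m * (m * (c / 2 * N)) := by linarith
    have t7 : (m * N) * (c / 2 * m) ≤ (m * N) * X := by
      rw [hX]
      linarith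
    have t8 := le_of_mul_le_mul_left t7 (by positivity)
    linarith
  obtain ⟨l, k, hl, hk, hlk, hb1, h1, h2⟩ := hex
  refine ⟨l, k, hl, hk, hlk, ?_⟩
  obtain ⟨s0, hs0⟩ : ∃ s0 : Finset E, s0 = (univ : Finset E).filter
      (fun e => s ≤ (heavy b (K k) (L k) e).card ∧ s ≤ (heavy b (K' l) (L' l) e).card) := ⟨_, rfl⟩
  have hmaps : ∀ e ∈ s0, (heavy b (K k) (L k) e, heavy b (K' l) (L' l) e) ∈
      (range b).powerset ×ˢ (range b).powerset := by
    intro e _
    rw [Finset.mem_product, Finset.mem_powerset, Finset.mem_powerset]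
    exact ⟨Finset.filter_subset _ _, Finset.filter_subset _ _⟩
  have hcardt : ((range b).powerset ×ˢ (range b).powerset).card = 4 ^ b := by
    rw [Finset.card_product, Finset.card_powerset, Finset.card_range, ← mul_pow]
    norm_num
  have hne : ((range b).powerset ×ˢ (range b).powerset).Nonempty :=
    Finset.card_pos.1 (by rw [hcardt]; positivity)
  have hle : ((range b).powerset ×ˢ (range b).powerset).card • (c / 2 / 4 ^ b * N) ≤
      (s0.card : ℝ) := by
    rw [hcardt, nsmul_eq_mul]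
    push_cast
    have h3 : (4 : ℝ) ^ b * (c / 2 / 4 ^ b * N) = c / 2 * N := by
      field_simp
    rw [h3, hs0, ← hbo]
    exact hb1
  obtain ⟨y, hy, hyc⟩ := Finset.exists_le_card_fiber_of_nsmul_le_card_of_maps_to hmaps hne hle
  obtain ⟨S, S'⟩ := y
  rw [Finset.mem_product, Finset.mem_powerset, Finset.mem_powerset] at hy
  have hpos : 0 < (c / 2 / 4 ^ b * N) := by positivity
  have hne2 : (s0.filter (fun e => (heavy b (K k) (L k) e, heavy b (K' l) (L' l) e) =
      (S, S'))).Nonempty := by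
    rw [← Finset.card_pos]
    have h3 := hpos.trans_le hyc
    exact_mod_cast h3
  obtain ⟨e, he⟩ := hne2
  rw [Finset.mem_filter, hs0, Finset.mem_filter, Prod.mk.injEq] at he
  refine ⟨S, S', hy.1, hy.2, ?_, ?_, ?_, ?_, ?_⟩
  · rw [← he.2.1]
    exact he.1.2.1
  · rw [← he.2.2]
    exact he.1.2.2
  · rw [← hN]
    refine hyc.trans ?_
    have h3 : (s0.filter (fun e => (heavy b (K k) (L k) e, heavy b (K' l) (L' l) e) =
      (S, S'))).card ≤ ((univ : Finset E).filter (fun e =>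
          heavy b (K k) (L k) e = S ∧ heavy b (K' l) (L' l) e = S')).card := by
      apply Finset.card_le_card
      intro e' he'
      rw [Finset.mem_filter, Prod.mk.injEq] at he'
      rw [Finset.mem_filter]
      exact ⟨Finset.mem_univ _, he'.2⟩
    exact_mod_cast h3
  · rw [← hN, ← hD1]
    exact h1
  · rw [← hN, ← hD2]
    exact h2


end H852OF
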