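import Mathlib
import Pool.Agent.Helper852.OF.Defs
import Pool.Agent.Helper852.OF.BadLe

set_option autoImplicit false

open Finset

namespace H852OF




theorem stepU_bad {E κ κ' : Type} [Fintype E] [DecidableEq E] [DecidableEq κ] [DecidableEq κ']
    (b : ℕ) (hb : 1 ≤ b)
    (K1 K0 : E → κ) (L : E → ℕ) (hK : ∀ e e', K1 e = K1 e' ↔ (K0 e = K0 e' ∧ L e = L e'))
    (K1' K0' : E → κ') (L' : E → ℕ) (hK' : ∀ e e', K1' e = K1' e' ↔ (K0' e = K0' e' ∧ L' e = L' e'))
    (S S' : Finset ℕ) (hS : S ⊆ range b) (hS' : S' ⊆ range b) (Es U : Finset E)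
    (hEs : ∀ e, e ∈ Es ↔ (heavy b K0 L e = S ∧ heavy b K0' L' e = S')) (hU : U ⊆ Es) :
    ((Es \ stepU K0 L K0' L' S S' U).card : ℝ) ≤ (1 + 2 * (b : ℝ) ^ 2) * ((Es \ U).card : ℝ) +
      (b : ℝ) ^ 2 * (disc b K1 K0 (heavy b K0' L') + disc b K1' K0' (heavy b K0 L)) := by
  classical
  have h1 := bad_le b hb K1 K0 L hK (heavy b K0' L') S S' hS' Es U hEs hU
  have h2 := bad_le b hb K1' K0' L' hK' (heavy b K0 L) S' S hS Es U
    (fun e => by rw [hEs e]; exact and_comm) hU
  set B1 := Es.filter (fun e => ∃ x ∈ S, ∀ e' ∈ U, K0 e' = K0 e → L e' ≠ x) with hB1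
  set B2 := Es.filter (fun e => ∃ x ∈ S', ∀ e' ∈ U, K0' e' = K0' e → L' e' ≠ x) with hB2
  have hsub : Es \ stepU K0 L K0' L' S S' U ⊆ (Es \ U) ∪ (B1 ∪ B2) := by
    intro e he
    rw [mem_sdiff] at he
    obtain ⟨heE, heS⟩ := he
    rw [mem_union, mem_union]
    by_cases heU : e ∈ U
    · right
      by_contra hcon
      push Not at hcon
      obtain ⟨hc1, hc2⟩ := hcon
      apply heS
      unfold stepU
      refine (@mem_filter _ _ (_) _ _).2 ⟨heU, ?_, ?_⟩
      · intro x hx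
        by_contra hno
        apply hc1
        rw [hB1, mem_filter]
        refine ⟨heE, x, hx, ?_⟩
        intro e' he' hk hl
        exact hno ⟨e', he', hk, hl⟩
      · intro x hx
        by_contra hno
        apply hc2
        rw [hB2, mem_filter]
        refine ⟨heE, x, hx, ?_⟩
        intro e' he' hk hl
        exact hno ⟨e', he', hk, hl⟩
    · left
      rw [mem_sdiff]
      exact ⟨heE, heU⟩
  have h3 : (Es \ stepU K0 L K0' L' S S' U).card ≤ (Es \ U).card + (B1.card + B2.card) :=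
    (card_le_card hsub).trans ((card_union_le _ _).trans (Nat.add_le_add_left (card_union_le _ _) _))
  have h4 : ((Es \ stepU K0 L K0' L' S S' U).card : ℝ) ≤
      ((Es \ U).card : ℝ) + ((B1.card : ℝ) + (B2.card : ℝ)) := by exact_mod_cast h3
  refine h4.trans ?_
  have h5 : (B1.card : ℝ) ≤ (b : ℝ) ^ 2 * (((Es \ U).card : ℝ) + disc b K1 K0 (heavy b K0' L')) := by
    convert h1 using 1
  have h6 : (B2.card : ℝ) ≤ (b : ℝ) ^ 2 * (((Es \ U).card : ℝ) + disc b K1' K0' (heavy b K0 L)) := by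
    convert h2 using 1
  nlinarith


end H852OF
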