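import Mathlib
import Pool.Agent.Helper852.OF.Defs
import Pool.Agent.Helper852.OF.StepuBad

set_option autoImplicit false

open Finset

namespace H852OF




theorem iter_bad_sub {E κ κ' : Type} [Fintype E] [DecidableEq E] [DecidableEq κ] (K : E → κ)
    (L : E → ℕ) (K' : E → κ') (L' : E → ℕ) (S S' : Finset ℕ) (U : Finset E) :
    stepU K L K' L' S S' U ⊆ U := by
  classical
  unfold stepU
  exact Finset.filter_subset _ _

theorem iter_bad_disc {E κ : Type} [Fintype E] [DecidableEq E] [DecidableEq κ] (b : ℕ)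
    (K1 K0 : E → κ) (T : E → Finset ℕ) : 0 ≤ disc b K1 K0 T := by
  unfold disc
  exact Finset.sum_nonneg fun t _ => Finset.sum_nonneg fun e _ => abs_nonneg _

theorem iter_bad {E κ κ' : Type} [Fintype E] [DecidableEq E] [DecidableEq κ] [DecidableEq κ']
    (b : ℕ) (hb : 1 ≤ b)
    (K1 K0 : E → κ) (L : E → ℕ) (hK : ∀ e e', K1 e = K1 e' ↔ (K0 e = K0 e' ∧ L e = L e'))
    (K1' K0' : E → κ') (L' : E → ℕ) (hK' : ∀ e e', K1' e = K1' e' ↔ (K0' e = K0' e' ∧ L' e = L' e'))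
    (S S' : Finset ℕ) (hS : S ⊆ range b) (hS' : S' ⊆ range b) (Es : Finset E)
    (hEs : ∀ e, e ∈ Es ↔ (heavy b K0 L e = S ∧ heavy b K0' L' e = S')) (d : ℕ) :
    (stepU K0 L K0' L' S S')^[d] Es ⊆ Es ∧
    ((Es \ (stepU K0 L K0' L' S S')^[d] Es).card : ℝ) ≤ (1 + 2 * (b : ℝ) ^ 2) ^ d *
      (disc b K1 K0 (heavy b K0' L') + disc b K1' K0' (heavy b K0 L)) := by
  have hD1 := iter_bad_disc b K1 K0 (heavy b K0' L')
  have hD2 := iter_bad_disc b K1' K0' (heavy b K0 L)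
  obtain ⟨X, hX⟩ : ∃ X, X = disc b K1 K0 (heavy b K0' L') + disc b K1' K0' (heavy b K0 L) :=
    ⟨_, rfl⟩
  rw [← hX]
  have hX0 : 0 ≤ X := by
    rw [hX]
    linarith
  have key : (stepU K0 L K0' L' S S')^[d] Es ⊆ Es ∧
    ((Es \ (stepU K0 L K0' L' S S')^[d] Es).card : ℝ) ≤
      (((1 + 2 * (b : ℝ) ^ 2) ^ d - 1) / 2) * X := by
    induction d with
    | zero => simp
    | succ d ih =>
      rw [Function.iterate_succ_apply']
      obtain ⟨ih1, ih2⟩ := ih
      constructor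
      · exact Finset.Subset.trans (iter_bad_sub _ _ _ _ _ _ _) ih1
      · have h1 := stepU_bad b hb K1 K0 L hK K1' K0' L' hK' S S' hS hS' Es _ hEs ih1
        rw [← hX] at h1
        refine h1.trans ?_
        have h2 : (0 : ℝ) ≤ 1 + 2 * (b : ℝ) ^ 2 := by positivity
        have h3 := mul_le_mul_of_nonneg_left ih2 h2
        have h5 : ((1 + 2 * (b : ℝ) ^ 2) ^ (d + 1) - 1) / 2 * X =
          (1 + 2 * (b : ℝ) ^ 2) * (((1 + 2 * (b : ℝ) ^ 2) ^ d - 1) / 2 * X) +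
            (b : ℝ) ^ 2 * X := by
          rw [pow_succ (1 + 2 * (b : ℝ) ^ 2) d]
          ring
        rw [h5]
        linarith
  refine ⟨key.1, key.2.trans ?_⟩
  apply mul_le_mul_of_nonneg_right _ hX0
  have h4 : (0 : ℝ) ≤ (1 + 2 * (b : ℝ) ^ 2) ^ d := by positivity
  linarith


end H852OF
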