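import Mathlib
import Pool.Agent.Helper852.OF.Defs
import Pool.Agent.Helper852.OF.IterBad
import Pool.Agent.Helper852.OF.Choice

set_option autoImplicit false

open Finset

namespace H852OF





theorem core_mem_stepU {E κ κ' : Type} [Fintype E] [DecidableEq E] [DecidableEq κ]
    {K : E → κ} {L : E → ℕ} {K' : E → κ'} {L' : E → ℕ} {S S' : Finset ℕ} {U : Finset E} {e : E} :
    e ∈ stepU K L K' L' S S' U ↔ e ∈ U ∧ ((∀ x ∈ S, ∃ e' ∈ U, K e' = K e ∧ L e' = x) ∧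
    (∀ z ∈ S', ∃ e' ∈ U, K' e' = K' e ∧ L' e' = z)) := by
  classical
  unfold stepU
  simp only [Finset.mem_filter]

/-- abstract core: two filtrations of a finite set -/
theorem core (b s D : ℕ) (hb : 1 ≤ b) (c : ℝ) (hc : 0 < c) :
    ∃ m0 : ℕ, ∀ m : ℕ, m0 ≤ m → ∀ (E κ κ' : Type) [Fintype E] [DecidableEq E] [DecidableEq κ]
      [DecidableEq κ'] [Nonempty E]
      (K : ℕ → E → κ) (L : ℕ → E → ℕ)
      (_ : ∀ k e e', K (k+1) e = K (k+1) e' ↔ (K k e = K k e' ∧ L k e = L k e'))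
      (K' : ℕ → E → κ') (L' : ℕ → E → ℕ)
      (_ : ∀ k e e', K' (k+1) e = K' (k+1) e' ↔ (K' k e = K' k e' ∧ L' k e = L' k e'))
      (_ : c * (m : ℝ) ^ 2 * (Fintype.card E : ℝ) ≤ ∑ l ∈ range m, ∑ k ∈ range m,
        (((univ : Finset E).filter (fun e => s ≤ (heavy b (K k) (L k) e).card ∧
          s ≤ (heavy b (K' l) (L' l) e).card)).card : ℝ)),
      ∃ l k : ℕ, l < m ∧ k < m ∧ l ≠ k ∧ ∃ S S' : Finset ℕ, S ⊆ range b ∧ S' ⊆ range b ∧
        s ≤ S.card ∧ s ≤ S'.card ∧ ∃ U : ℕ → Finset E, (U D).Nonempty ∧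
          (∀ d, U (d+1) ⊆ U d) ∧
          (∀ d, ∀ e ∈ U (d+1), ∀ x ∈ S, ∃ e' ∈ U d, K k e' = K k e ∧ L k e' = x) ∧
          (∀ d, ∀ e ∈ U (d+1), ∀ z ∈ S', ∃ e' ∈ U d, K' l e' = K' l e ∧ L' l e' = z) := by
  have hA : (0 : ℝ) < (1 + 2 * (b : ℝ) ^ 2) ^ D := by positivity
  have h4 : (0 : ℝ) < 4 ^ b := by positivity
  obtain ⟨m0, hm0⟩ := choice b s hb c (c / 2 / 4 ^ b / (4 * (1 + 2 * (b : ℝ) ^ 2) ^ D)) hc
    (by positivity)
  refine ⟨m0, ?_⟩
  intro m hm E κ κ' i1 i2 i3 i4 i5 K L hK K' L' hK' hsum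
  obtain ⟨l, k, hl, hk, hlk, S, S', hS, hS', hsS, hsS', hcard, hd1, hd2⟩ :=
    hm0 m hm E κ κ' K L hK K' L' hK' hsum
  refine ⟨l, k, hl, hk, hlk, S, S', hS, hS', hsS, hsS', ?_⟩
  obtain ⟨Es, hEs⟩ : ∃ Es : Finset E, Es = (univ : Finset E).filter (fun e =>
      heavy b (K k) (L k) e = S ∧ heavy b (K' l) (L' l) e = S') := ⟨_, rfl⟩
  have hEs' : ∀ e, e ∈ Es ↔ (heavy b (K k) (L k) e = S ∧ heavy b (K' l) (L' l) e = S') := by
    intro e
    rw [hEs]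
    simp
  rw [← hEs] at hcard
  have hN : (0 : ℝ) < (Fintype.card E : ℝ) := by exact_mod_cast Fintype.card_pos
  refine ⟨fun d => (stepU (K k) (L k) (K' l) (L' l) S S')^[d] Es, ?_, ?_, ?_, ?_⟩
  · obtain ⟨-, h2⟩ := iter_bad b hb (K (k+1)) (K k) (L k) (hK k) (K' (l+1)) (K' l) (L' l) (hK' l)
      S S' hS hS' Es hEs' D
    by_contra hcon
    rw [Finset.not_nonempty_iff_eq_empty] at hcon
    simp only at hcon
    rw [hcon, Finset.sdiff_empty] at h2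
    have h3 : (1 + 2 * (b : ℝ) ^ 2) ^ D *
        (disc b (K (k+1)) (K k) (heavy b (K' l) (L' l)) +
          disc b (K' (l+1)) (K' l) (heavy b (K k) (L k))) ≤
        (1 + 2 * (b : ℝ) ^ 2) ^ D *
        (2 * (c / 2 / 4 ^ b / (4 * (1 + 2 * (b : ℝ) ^ 2) ^ D) * (Fintype.card E : ℝ))) :=
      mul_le_mul_of_nonneg_left (by linarith) hA.le
    have h5 : (1 + 2 * (b : ℝ) ^ 2) ^ D *
        (2 * (c / 2 / 4 ^ b / (4 * (1 + 2 * (b : ℝ) ^ 2) ^ D) * (Fintype.card E : ℝ))) =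
        (c / 2 / 4 ^ b * (Fintype.card E : ℝ)) / 2 := by
      field_simp
      ring
    have h6 : 0 < c / 2 / 4 ^ b * (Fintype.card E : ℝ) := by positivity
    linarith
  · intro d e he
    simp only [Function.iterate_succ_apply'] at he
    exact (core_mem_stepU.1 he).1
  · intro d e he x hx
    simp only [Function.iterate_succ_apply'] at he
    exact ((core_mem_stepU.1 he).2.1) x hx
  · intro d e he z hz
    simp only [Function.iterate_succ_apply'] at he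
    exact ((core_mem_stepU.1 he).2.2) z hz


end H852OF
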