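import Mathlib
import Pool.Agent.Helper852.OF.Defs

set_option autoImplicit false

open Finset

namespace H852OF



/-- a finite acyclic graph is 1-degenerate -/
theorem leaf {n : ℕ} (F : SimpleGraph (Fin n)) (hF : F.IsAcyclic) (s : Finset (Fin n))
    (hs : s.Nonempty) : ∃ w ∈ s, ∀ u ∈ s, ∀ u' ∈ s, F.Adj w u → F.Adj w u' → u = u' := by
  classical
  obtain ⟨w0, hw0⟩ := hs
  have : Nonempty (↥(s : Set (Fin n))) := ⟨⟨w0, hw0⟩⟩
  have hac := hF.induce (s : Set (Fin n))
  obtain ⟨a, w, p, hp, hmax⟩ := SimpleGraph.Walk.exists_isPath_forall_isPath_length_le_length (F.induce (s : Set (Fin n)))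
  have key : ∀ v : ↥(s : Set (Fin n)), (F.induce (s : Set (Fin n))).Adj w v → v = p.penultimate := by
    intro v hv
    apply hac.eq_penultimate_of_adj_end hp hv
    by_contra hsupp
    have h1 := hp.concat hsupp hv
    have h2 := hmax _ _ _ h1
    rw [SimpleGraph.Walk.length_concat] at h2
    omega
  refine ⟨w.1, w.2, fun u hu u' hu' h1 h2 => ?_⟩
  have e1 := key ⟨u, hu⟩ h1
  have e2 := key ⟨u', hu'⟩ h2
  have e3 := e1.trans e2.symm
  exact congrArg Subtype.val e3


end H852OF
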