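import Mathlib
import Pool.Agent.Helper852.OF.Defs
import Pool.Agent.Helper852.OF.Leaf

set_option autoImplicit false

open Finset

namespace H852OF




theorem embed_anti {E : Type} (U : ℕ → Finset E) (hmono : ∀ d, U (d+1) ⊆ U d) :
    ∀ a b : ℕ, a ≤ b → U b ⊆ U a := by
  intro a b hab
  induction hab with
  | refl => exact Finset.Subset.refl _
  | step _ ih => exact (hmono _).trans ih

theorem embed_aux {n : ℕ} (F : SimpleGraph (Fin n)) (hF : F.IsAcyclic) (p : Fin n → Prop)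
    (hp : ∀ i j, F.Adj i j → (p i ↔ ¬ p j))
    {E ρ γ β : Type} (row : E → ρ) (col : E → γ) (blk : E → β) (L L' : E → ℕ)
    (S S' : Finset ℕ) (U : ℕ → Finset E) (hmono : ∀ d, U (d+1) ⊆ U d)
    (h1 : ∀ d, ∀ e ∈ U (d+1), ∀ x ∈ S, ∃ e' ∈ U d, row e' = row e ∧ blk e' = blk e ∧ L e' = x)
    (h2 : ∀ d, ∀ e ∈ U (d+1), ∀ z ∈ S', ∃ e' ∈ U d, col e' = col e ∧ blk e' = blk e ∧ L' e' = z)
    (e0 : E) (he0 : e0 ∈ U n) (lab : Fin n → ℕ) (hlab1 : ∀ i, p i → lab i ∈ S')
    (hlab2 : ∀ i, ¬ p i → lab i ∈ S) :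
    ∀ k : ℕ, k ≤ n → ∀ s : Finset (Fin n), s.card = k →
    ∃ φ : Fin n → E, (∀ i ∈ s, φ i ∈ U (n - k)) ∧ (∀ i ∈ s, blk (φ i) = blk e0) ∧
      (∀ i ∈ s, p i → L' (φ i) = lab i) ∧
      (∀ i ∈ s, ¬ p i → L (φ i) = lab i) ∧
      (∀ i ∈ s, ∀ j ∈ s, F.Adj i j → p i → ∃ e, row e = row (φ i) ∧ col e = col (φ j)) := by
  classical
  intro k
  induction k with
  | zero =>
    intro _ s hs
    have hs0 : s = ∅ := Finset.card_eq_zero.mp hs
    subst hs0
    exact ⟨fun _ => e0, by simp, by simp, by simp, by simp, by simp⟩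
  | succ k ih =>
    intro hkn s hs
    have hne : s.Nonempty := by
      rw [← Finset.card_pos]; omega
    obtain ⟨w, hw, hdeg⟩ := leaf F hF s hne
    have hcard : (s.erase w).card = k := by
      rw [Finset.card_erase_of_mem hw, hs]; rfl
    obtain ⟨φ, hU, hb, hL', hL, hE⟩ := ih (by omega) (s.erase w) hcard
    have hnk : n - k = (n - (k+1)) + 1 := by omega
    -- choose source element
    have hsrc : ∃ e1 ∈ U ((n - (k+1)) + 1), blk e1 = blk e0 ∧
        (∀ v ∈ s, F.Adj w v → e1 = φ v) := by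
      by_cases hv : ∃ v ∈ s, F.Adj w v
      · obtain ⟨v, hvs, hadj⟩ := hv
        have hvw : v ≠ w := fun h => by
          subst h; exact F.loopless.irrefl _ hadj
        have hve : v ∈ s.erase w := Finset.mem_erase.mpr ⟨hvw, hvs⟩
        refine ⟨φ v, ?_, hb v hve, ?_⟩
        · rw [← hnk]; exact hU v hve
        · intro v' hv' hadj'
          rw [hdeg v hvs v' hv' hadj hadj']
      · refine ⟨e0, ?_, rfl, ?_⟩
        · exact embed_anti U hmono _ _ (by omega) he0
        · intro v hvs hadj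
          exact absurd ⟨v, hvs, hadj⟩ hv
    obtain ⟨e1, he1, hbe1, hsrc1⟩ := hsrc
    have hstep : ∃ e' ∈ U (n - (k+1)), blk e' = blk e0 ∧ (p w → L' e' = lab w ∧ col e' = col e1) ∧
        (¬ p w → L e' = lab w ∧ row e' = row e1) := by
      by_cases hpw : p w
      · obtain ⟨e', he', hc, hbb, hl⟩ := h2 _ e1 he1 (lab w) (hlab1 w hpw)
        exact ⟨e', he', hbb.trans hbe1, fun _ => ⟨hl, hc⟩, fun h => absurd hpw h⟩
      · obtain ⟨e', he', hc, hbb, hl⟩ := h1 _ e1 he1 (lab w) (hlab2 w hpw)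
        exact ⟨e', he', hbb.trans hbe1, fun h => absurd h hpw, fun _ => ⟨hl, hc⟩⟩
    obtain ⟨e', he', hbe', hp1, hp2⟩ := hstep
    refine ⟨Function.update φ w e', ?_, ?_, ?_, ?_, ?_⟩
    · intro i hi
      by_cases hiw : i = w
      · subst hiw; rw [Function.update_self]; exact he'
      · rw [Function.update_of_ne hiw]
        exact embed_anti U hmono _ _ (by omega) (hU i (Finset.mem_erase.mpr ⟨hiw, hi⟩))
    · intro i hi
      by_cases hiw : i = w
      · subst hiw; rw [Function.update_self]; exact hbe'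
      · rw [Function.update_of_ne hiw]
        exact hb i (Finset.mem_erase.mpr ⟨hiw, hi⟩)
    · intro i hi hpi
      by_cases hiw : i = w
      · subst hiw; rw [Function.update_self]; exact (hp1 hpi).1
      · rw [Function.update_of_ne hiw]
        exact hL' i (Finset.mem_erase.mpr ⟨hiw, hi⟩) hpi
    · intro i hi hpi
      by_cases hiw : i = w
      · subst hiw; rw [Function.update_self]; exact (hp2 hpi).1
      · rw [Function.update_of_ne hiw]
        exact hL i (Finset.mem_erase.mpr ⟨hiw, hi⟩) hpi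
    · intro i hi j hj hadj hpi
      by_cases hiw : i = w
      · subst hiw
        have hji : j ≠ i := fun h => by
          subst h; exact F.loopless.irrefl _ hadj
        rw [Function.update_self, Function.update_of_ne hji]
        refine ⟨e', rfl, ?_⟩
        rw [(hp1 hpi).2, hsrc1 j hj hadj]
      · by_cases hjw : j = w
        · subst hjw
          have hpj : ¬ p j := (hp i j hadj).mp hpi
          rw [Function.update_self, Function.update_of_ne hiw]
          refine ⟨e', ?_, rfl⟩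
          rw [(hp2 hpj).2, hsrc1 i hi hadj.symm]
        · rw [Function.update_of_ne hiw, Function.update_of_ne hjw]
          exact hE i (Finset.mem_erase.mpr ⟨hiw, hi⟩) j (Finset.mem_erase.mpr ⟨hjw, hj⟩) hadj hpi

/-- greedy embedding of a forest -/
theorem embed {n : ℕ} (F : SimpleGraph (Fin n)) (hF : F.IsAcyclic) (p : Fin n → Prop)
    (hp : ∀ i j, F.Adj i j → (p i ↔ ¬ p j))
    {E ρ γ β : Type} (row : E → ρ) (col : E → γ) (blk : E → β) (L L' : E → ℕ)
    (S S' : Finset ℕ) (U : ℕ → Finset E) (hmono : ∀ d, U (d+1) ⊆ U d)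
    (h1 : ∀ d, ∀ e ∈ U (d+1), ∀ x ∈ S, ∃ e' ∈ U d, row e' = row e ∧ blk e' = blk e ∧ L e' = x)
    (h2 : ∀ d, ∀ e ∈ U (d+1), ∀ z ∈ S', ∃ e' ∈ U d, col e' = col e ∧ blk e' = blk e ∧ L' e' = z)
    (e0 : E) (he0 : e0 ∈ U n) (lab : Fin n → ℕ) (hlab1 : ∀ i, p i → lab i ∈ S')
    (hlab2 : ∀ i, ¬ p i → lab i ∈ S) :
    ∃ φ : Fin n → E, (∀ i, blk (φ i) = blk e0) ∧ (∀ i, p i → L' (φ i) = lab i) ∧
      (∀ i, ¬ p i → L (φ i) = lab i) ∧
      (∀ i j, F.Adj i j → p i → ∃ e, row e = row (φ i) ∧ col e = col (φ j)) := by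
  obtain ⟨φ, _, hb, hL', hL, hE⟩ := embed_aux F hF p hp row col blk L L' S S' U hmono h1 h2 e0 he0
    lab hlab1 hlab2 n le_rfl Finset.univ (by simp)
  exact ⟨φ, fun i => hb i (Finset.mem_univ i), fun i => hL' i (Finset.mem_univ i),
    fun i => hL i (Finset.mem_univ i),
    fun i j => hE i (Finset.mem_univ i) j (Finset.mem_univ j)⟩


end H852OF
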