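import Mathlib
import Pool.Agent.Helper852.OF.Defs

set_option autoImplicit false

open Finset

namespace H852OF



theorem kraft_cl_eq {E κ : Type} [Fintype E] [DecidableEq E] [DecidableEq κ] (K : E → κ) {e e' : E}
    (h : K e' = K e) : cl K e' = cl K e := by
  unfold cl
  rw [h]

theorem kraft_card_pos {E κ : Type} [Fintype E] [DecidableEq E] [DecidableEq κ] (K : E → κ) (e : E) :
    (0 : ℝ) < ((cl K e).card : ℝ) := by
  have : 0 < (cl K e).card := Finset.card_pos.2 ⟨e, by simp [cl]⟩
  exact_mod_cast this

theorem kraft_avg {E κ : Type} [Fintype E] [DecidableEq E] [DecidableEq κ] (K : E → κ) (g : E → ℝ) :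
    ∑ e, (∑ e' ∈ cl K e, g e') / ((cl K e).card : ℝ) = ∑ e, g e := by
  have h1 : ∀ e, (∑ e' ∈ cl K e, g e') / ((cl K e).card : ℝ) =
      ∑ e', if K e' = K e then g e' / ((cl K e').card : ℝ) else 0 := by
    intro e
    rw [Finset.sum_div, ← Finset.sum_filter]
    apply Finset.sum_congr rfl
    intro e' he'
    have : K e' = K e := by simpa [cl] using he'
    rw [kraft_cl_eq K this]
  rw [Finset.sum_congr rfl (fun e _ => h1 e), Finset.sum_comm]
  apply Finset.sum_congr rfl
  intro e' _
  rw [← Finset.sum_filter, Finset.sum_const, nsmul_eq_mul]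
  have h2 : (univ.filter (fun e => K e' = K e)) = cl K e' := by
    unfold cl
    ext x
    simp [eq_comm]
  rw [h2]
  have := kraft_card_pos K e'
  field_simp

theorem kraft_count {E κ : Type} [Fintype E] [DecidableEq E] [DecidableEq κ] (K : E → κ) :
    ∑ e, 1 / ((cl K e).card : ℝ) = (((univ : Finset E).image K).card : ℝ) := by
  have h := Finset.sum_image' (s := (univ : Finset E)) (g := K) (f := fun _ => (1 : ℝ))
    (h := fun e => 1 / ((cl K e).card : ℝ)) (by
      intro c _
      have h1 : ∀ x ∈ (univ : Finset E).filter (fun x => K x = K c), 1 / ((cl K x).card : ℝ) =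
          1 / ((cl K c).card : ℝ) := by
        intro x hx
        rw [kraft_cl_eq K (by simpa using hx)]
      rw [Finset.sum_congr rfl h1, Finset.sum_const, nsmul_eq_mul]
      have := kraft_card_pos K c
      change 1 = ((cl K c).card : ℝ) * (1 / ((cl K c).card : ℝ))
      field_simp)
  rw [← h]
  simp


/-- Kraft inequality along a filtration -/
theorem kraft {E κ : Type} [Fintype E] [DecidableEq E] [DecidableEq κ] (K : ℕ → E → κ)
    (hK : ∀ k e e', K (k+1) e = K (k+1) e' → K k e = K k e') (m : ℕ)
    (hinj : Function.Injective (K m)) (w : ℕ → E → ℝ) (hw0 : ∀ k e, 0 ≤ w k e)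
    (hw : ∀ k e e', K (k+1) e = K (k+1) e' → w k e = w k e')
    (hsum : ∀ k e, ∑ e' ∈ cl (K k) e, w k e' / ((cl (K (k+1)) e').card : ℝ) ≤ 1) :
    ∑ e, ∏ k ∈ range m, w k e ≤ (((univ : Finset E).image (K 0)).card : ℝ) := by
  classical
  have hKle : ∀ j k, k ≤ j → ∀ e e', K j e = K j e' → K k e = K k e' := by
    intro j k hkj
    induction hkj with
    | refl => exact fun e e' h => h
    | step _ ih => exact fun e e' h => ih e e' (hK _ e e' h)
  have hP : ∀ j e e', K j e = K j e' → ∏ k ∈ range j, w k e = ∏ k ∈ range j, w k e' := by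
    intro j e e' h
    apply Finset.prod_congr rfl
    intro k hk
    have hkj : k + 1 ≤ j := Finset.mem_range.1 hk
    exact hw k e e' (hKle j (k + 1) hkj e e' h)
  have hQ : ∀ j, ∑ e, (∏ k ∈ range j, w k e) / ((cl (K j) e).card : ℝ) ≤
      (((univ : Finset E).image (K 0)).card : ℝ) := by
    intro j
    induction j with
    | zero =>
      simp only [Finset.range_zero, Finset.prod_empty]
      rw [kraft_count]
    | succ j ih =>
      refine le_trans ?_ ih
      rw [← kraft_avg (K j)]
      apply Finset.sum_le_sum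
      intro e _
      apply div_le_div_of_nonneg_right _ (kraft_card_pos (K j) e).le
      have h1 : ∑ e' ∈ cl (K j) e, (∏ k ∈ range (j + 1), w k e') / ((cl (K (j + 1)) e').card : ℝ) =
          (∏ k ∈ range j, w k e) * ∑ e' ∈ cl (K j) e, w j e' / ((cl (K (j + 1)) e').card : ℝ) := by
        rw [Finset.mul_sum]
        apply Finset.sum_congr rfl
        intro e' he'
        have : K j e' = K j e := by simpa [cl] using he'
        rw [Finset.prod_range_succ, hP j e' e this]
        ring
      rw [h1]
      have h2 : 0 ≤ ∏ k ∈ range j, w k e := Finset.prod_nonneg fun k _ => hw0 k e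
      calc (∏ k ∈ range j, w k e) * ∑ e' ∈ cl (K j) e, w j e' / ((cl (K (j + 1)) e').card : ℝ)
          ≤ (∏ k ∈ range j, w k e) * 1 := mul_le_mul_of_nonneg_left (hsum j e) h2
        _ = _ := mul_one _
  refine le_trans (le_of_eq ?_) (hQ m)
  apply Finset.sum_congr rfl
  intro e _
  have h3 : cl (K m) e = {e} := by
    unfold cl
    ext x
    simp only [Finset.mem_filter, Finset.mem_univ, true_and, Finset.mem_singleton]
    exact hinj.eq_iff
  rw [h3]
  simp

end H852OF
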