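import Mathlib
import Pool.Agent.Helper852.OF.Defs

set_option autoImplicit false

open Finset

namespace H852OF



theorem light_le_nat {E κ : Type} [Fintype E] [DecidableEq E] [DecidableEq κ] (b : ℕ)
    (K0 : E → κ) (L : E → ℕ) (hL : ∀ e, L e < b) :
    b ^ 2 * ((univ : Finset E).filter (fun e => L e ∉ heavy b K0 L e)).card ≤
      b * Fintype.card E := by
  set Li : Finset E := (univ : Finset E).filter (fun e => L e ∉ heavy b K0 L e) with hLi
  have hmaps : Set.MapsTo (fun e => (K0 e, L e)) (Li : Set E)
      (((univ : Finset E).image K0 ×ˢ range b : Finset (κ × ℕ)) : Set (κ × ℕ)) := by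
    intro e _
    simp only [Finset.coe_product, Set.mem_prod, Finset.mem_coe, Finset.mem_image, Finset.mem_univ,
      true_and, Finset.mem_range]
    exact ⟨⟨e, rfl⟩, hL e⟩
  rw [Finset.card_eq_sum_card_fiberwise hmaps, Finset.mul_sum]
  have hfib : ∀ p ∈ (univ : Finset E).image K0 ×ˢ range b,
      b ^ 2 * (Li.filter (fun e => (K0 e, L e) = p)).card ≤
        ((univ : Finset E).filter (fun e => K0 e = p.1)).card := by
    rintro ⟨k, x⟩ _
    rcases (Li.filter (fun e => (K0 e, L e) = (k, x))).eq_empty_or_nonempty with h | ⟨e0, he0⟩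
    · rw [h]; simp
    · simp only [Finset.mem_filter, Prod.mk.injEq] at he0
      obtain ⟨h1, h2, h3⟩ := he0
      rw [hLi, Finset.mem_filter] at h1
      have h4 := h1.2
      unfold heavy at h4
      simp only [Finset.mem_filter, Finset.mem_range, not_and, not_le] at h4
      have h5 := h4 (hL e0)
      have h6 : (Li.filter (fun e => (K0 e, L e) = (k, x))).card ≤ cnt K0 L e0 (L e0) := by
        unfold cnt cl
        apply Finset.card_le_card
        intro e he
        simp only [Finset.mem_filter, Prod.mk.injEq, Finset.mem_univ, true_and] at he ⊢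
        exact ⟨he.2.1.trans h2.symm, he.2.2.trans h3.symm⟩
      have h7 : (cl K0 e0).card = ((univ : Finset E).filter (fun e => K0 e = k)).card := by
        unfold cl
        rw [h2]
      calc b ^ 2 * (Li.filter (fun e => (K0 e, L e) = (k, x))).card
          ≤ b ^ 2 * cnt K0 L e0 (L e0) := Nat.mul_le_mul_left _ h6
        _ ≤ (cl K0 e0).card := h5.le
        _ = _ := h7
  refine (Finset.sum_le_sum hfib).trans (le_of_eq ?_)
  rw [Finset.sum_product]
  simp only [Finset.sum_const, Finset.card_range, smul_eq_mul]
  rw [← Finset.mul_sum]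
  congr 1
  have := Finset.card_eq_sum_card_fiberwise (f := K0) (s := (univ : Finset E))
    (t := (univ : Finset E).image K0) (fun e _ => by
      simp only [Finset.coe_image, Finset.coe_univ]
      exact ⟨e, trivial, rfl⟩)
  rw [← this, Finset.card_univ]

/-- the light labels carry at most the fraction 1/b -/
theorem light_le {E κ : Type} [Fintype E] [DecidableEq E] [DecidableEq κ] (b : ℕ) (hb : 1 ≤ b)
    (K0 : E → κ) (L : E → ℕ) (hL : ∀ e, L e < b) :
    (b : ℝ) * (((univ : Finset E).filter (fun e => L e ∉ heavy b K0 L e)).card : ℝ) ≤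
      (Fintype.card E : ℝ) := by
  have h := light_le_nat b K0 L hL
  have h2 : b * (b * ((univ : Finset E).filter (fun e => L e ∉ heavy b K0 L e)).card) ≤
      b * Fintype.card E := by
    calc b * (b * ((univ : Finset E).filter (fun e => L e ∉ heavy b K0 L e)).card)
        = b ^ 2 * ((univ : Finset E).filter (fun e => L e ∉ heavy b K0 L e)).card := by ring
      _ ≤ _ := h
  have h3 := Nat.le_of_mul_le_mul_left h2 (by omega)
  exact_mod_cast h3


end H852OF
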