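import Mathlib
import Pool.Agent.Helper852.OF.Defs

set_option autoImplicit false

open Finset

namespace H852OF



theorem numeric_chooseb (ε : ℝ) (hε : 0 < ε) (s : ℕ) :
    ∃ b : ℕ, 2 ≤ b ∧ 8 * Real.log (2 * (b : ℝ) ^ 2) / b + Real.log (2 * (s : ℝ)) ≤
      (ε / 2) * Real.log b := by
  obtain ⟨N, hN⟩ := exists_nat_ge (Real.exp ((24 + Real.log (2 * (s : ℝ))) * 2 / ε))
  refine ⟨max 2 N, le_max_left _ _, ?_⟩
  set b := max 2 N with hb
  have hb2 : (2 : ℝ) ≤ (b : ℝ) := by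
    have : 2 ≤ b := le_max_left _ _
    exact_mod_cast this
  have hbN : (N : ℝ) ≤ (b : ℝ) := by
    have : N ≤ b := le_max_right _ _
    exact_mod_cast this
  have hbpos : (0 : ℝ) < b := by linarith
  have h1 : (24 + Real.log (2 * (s : ℝ))) * 2 / ε ≤ Real.log b := by
    rw [Real.le_log_iff_exp_le hbpos]
    linarith
  have h2 : 24 + Real.log (2 * (s : ℝ)) ≤ (ε / 2) * Real.log b := by
    rw [div_le_iff₀ hε] at h1
    linarith
  have h3 : Real.log (2 * (b : ℝ) ^ 2) ≤ 3 * b := by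
    have e1 : Real.log (2 * (b : ℝ) ^ 2) = Real.log 2 + 2 * Real.log b := by
      rw [Real.log_mul (by norm_num) (by positivity), Real.log_pow]
      norm_num
    have e2 : Real.log 2 ≤ Real.log b := Real.log_le_log (by norm_num) hb2
    have e3 : Real.log b ≤ b - 1 := Real.log_le_sub_one_of_pos hbpos
    rw [e1]
    linarith
  have h4 : 8 * Real.log (2 * (b : ℝ) ^ 2) / b ≤ 24 := by
    rw [div_le_iff₀ hbpos]
    linarith
  linarith

theorem numeric_main (ε : ℝ) (hε : 0 < ε) (s : ℕ) (hs : 1 ≤ s) (b : ℕ) (hb : 2 ≤ b)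
    (hb1 : 8 * Real.log (2 * (b : ℝ) ^ 2) / b + Real.log (2 * (s : ℝ)) ≤
      (ε / 2) * Real.log b) (m : ℕ) (hm1 : 1 ≤ m)
    (hm : Real.log 8 + Real.log (2 * (b : ℝ) ^ 2) + ε * Real.log b ≤
      (ε / 2) * Real.log b * m) :
    8 * ((2 * (b : ℝ) ^ 2) ^ (8 * m / b + 1) * (2 * (s : ℝ)) ^ m) ≤
      ((b : ℝ) ^ (m - 1)) ^ ε := by
  have hb2 : (2 : ℝ) ≤ (b : ℝ) := by exact_mod_cast hb
  have hbpos : (0 : ℝ) < b := by linarith
  have hspos : (0 : ℝ) < s := by exact_mod_cast hs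
  have hL : 0 ≤ Real.log (2 * (b : ℝ) ^ 2) := by
    apply Real.log_nonneg
    nlinarith
  have hpow : (0 : ℝ) < (b : ℝ) ^ (m - 1) := by positivity
  have hlhs : (0 : ℝ) < 8 * ((2 * (b : ℝ) ^ 2) ^ (8 * m / b + 1) * (2 * (s : ℝ)) ^ m) := by
    positivity
  have hrhs : (0 : ℝ) < ((b : ℝ) ^ (m - 1)) ^ ε := Real.rpow_pos_of_pos hpow ε
  rw [← Real.log_le_log_iff hlhs hrhs]
  rw [Real.log_rpow hpow, Real.log_pow, Real.log_mul (by norm_num) (by positivity),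
    Real.log_mul (by positivity) (by positivity), Real.log_pow, Real.log_pow]
  have hq : ((8 * m / b + 1 : ℕ) : ℝ) ≤ 8 * m / b + 1 := by
    push_cast
    have := @Nat.cast_div_le ℝ _ _ _ (8 * m) b
    push_cast at this
    linarith
  have h1 : ((8 * m / b + 1 : ℕ) : ℝ) * Real.log (2 * (b : ℝ) ^ 2) ≤
      (8 * m / b + 1) * Real.log (2 * (b : ℝ) ^ 2) := mul_le_mul_of_nonneg_right hq hL
  have h2 : (m : ℝ) * (8 * Real.log (2 * (b : ℝ) ^ 2) / b + Real.log (2 * (s : ℝ))) ≤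
      m * ((ε / 2) * Real.log b) := mul_le_mul_of_nonneg_left hb1 (by positivity)
  have h3 : ((m - 1 : ℕ) : ℝ) = m - 1 := by
    rw [Nat.cast_sub hm1]
    norm_num
  rw [h3]
  have h4 : (8 * (m : ℝ) / b + 1) * Real.log (2 * (b : ℝ) ^ 2) =
      m * (8 * Real.log (2 * (b : ℝ) ^ 2) / b) + Real.log (2 * (b : ℝ) ^ 2) := by
    field_simp
  nlinarith

/-- choice of the base -/
theorem numeric (ε : ℝ) (hε : 0 < ε) (s : ℕ) (hs : 1 ≤ s) :
    ∃ b : ℕ, 2 ≤ b ∧ ∃ m0 : ℕ, ∀ m n : ℕ, m0 ≤ m → b ^ (m - 1) < n → n ≤ b ^ m →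
      8 * ((n : ℝ) * (2 * (b : ℝ) ^ 2) ^ (8 * m / b + 1) * (2 * (s : ℝ)) ^ m) ≤
        (n : ℝ) ^ (1 + ε) := by
  obtain ⟨b, hb, hb1⟩ := numeric_chooseb ε hε s
  refine ⟨b, hb, ?_⟩
  have hb2 : (2 : ℝ) ≤ (b : ℝ) := by exact_mod_cast hb
  have hlogb : 0 < Real.log b := Real.log_pos (by linarith)
  have hc : 0 < (ε / 2) * Real.log b := by positivity
  obtain ⟨M, hM⟩ := exists_nat_ge
    ((Real.log 8 + Real.log (2 * (b : ℝ) ^ 2) + ε * Real.log b) / ((ε / 2) * Real.log b))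
  refine ⟨max 1 M, ?_⟩
  intro m n hm hn1 _
  have hm1 : 1 ≤ m := le_trans (le_max_left _ _) hm
  have hmM : (M : ℝ) ≤ m := by
    have : M ≤ m := le_trans (le_max_right _ _) hm
    exact_mod_cast this
  have hkey : Real.log 8 + Real.log (2 * (b : ℝ) ^ 2) + ε * Real.log b ≤
      (ε / 2) * Real.log b * m := by
    rw [div_le_iff₀ hc] at hM
    have := mul_le_mul_of_nonneg_right hmM hc.le
    linarith
  have hmain := numeric_main ε hε s hs b hb hb1 m hm1 hkey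
  have hnpos : (0 : ℝ) < n := by
    have : 0 < n := lt_of_le_of_lt (Nat.zero_le _) hn1
    exact_mod_cast this
  have hbn : ((b : ℝ) ^ (m - 1)) ≤ (n : ℝ) := by
    have : b ^ (m - 1) ≤ n := hn1.le
    exact_mod_cast this
  have hbpow : (0 : ℝ) ≤ (b : ℝ) ^ (m - 1) := by positivity
  have hle : ((b : ℝ) ^ (m - 1)) ^ ε ≤ (n : ℝ) ^ ε := Real.rpow_le_rpow hbpow hbn hε.le
  have hrw : (n : ℝ) ^ (1 + ε) = n * (n : ℝ) ^ ε := by
    rw [Real.rpow_add hnpos, Real.rpow_one]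
  rw [hrw]
  have h5 := mul_le_mul_of_nonneg_left (le_trans hmain hle) hnpos.le
  calc 8 * ((n : ℝ) * (2 * (b : ℝ) ^ 2) ^ (8 * m / b + 1) * (2 * (s : ℝ)) ^ m)
      = n * (8 * ((2 * (b : ℝ) ^ 2) ^ (8 * m / b + 1) * (2 * (s : ℝ)) ^ m)) := by ring
    _ ≤ _ := h5


end H852OF
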