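import Mathlib
import Pool.Agent.Helper852.OF.Defs

set_option autoImplicit false

open Finset

namespace H852OF



/-- class sums over labels -/
theorem sum_labels {E κ : Type} [Fintype E] [DecidableEq E] [DecidableEq κ] (b : ℕ)
    (K1 K0 : E → κ) (L : E → ℕ) (hK : ∀ e e', K1 e = K1 e' ↔ (K0 e = K0 e' ∧ L e = L e'))
    (hL : ∀ e, L e < b) (g : ℕ → ℝ) (hg : ∀ x, 0 ≤ g x) (e : E) :
    ∑ e' ∈ cl K0 e, g (L e') / ((cl K1 e').card : ℝ) ≤ ∑ x ∈ range b, g x := by
  rw [← Finset.sum_fiberwise_of_maps_to (g := L) (t := range b)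
    (fun e' _ => mem_range.2 (hL e'))]
  apply Finset.sum_le_sum
  intro x _
  have hF : ∀ e' ∈ (cl K0 e).filter (fun e' => L e' = x),
      cl K1 e' = (cl K0 e).filter (fun e' => L e' = x) := by
    intro e' he'
    rw [mem_filter, cl, mem_filter] at he'
    ext e''
    rw [mem_filter, cl, cl, mem_filter, mem_filter]
    constructor
    · rintro ⟨_, h⟩
      rw [hK] at h
      exact ⟨⟨mem_univ _, h.1.trans he'.1.2⟩, h.2.trans he'.2⟩
    · rintro ⟨⟨_, h1⟩, h2⟩
      refine ⟨mem_univ _, ?_⟩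
      rw [hK]
      exact ⟨h1.trans he'.1.2.symm, h2.trans he'.2.symm⟩
  have hs : ∑ e' ∈ (cl K0 e).filter (fun e' => L e' = x), g (L e') / ((cl K1 e').card : ℝ) =
      ∑ e' ∈ (cl K0 e).filter (fun e' => L e' = x),
        g x / (((cl K0 e).filter (fun e' => L e' = x)).card : ℝ) := by
    apply Finset.sum_congr rfl
    intro e' he'
    rw [hF e' he', (mem_filter.1 he').2]
  rw [hs, Finset.sum_const, nsmul_eq_mul]
  rcases Nat.eq_zero_or_pos ((cl K0 e).filter (fun e' => L e' = x)).card with h | h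
  · rw [h]
    simpa using hg x
  · have h' : (0 : ℝ) < (((cl K0 e).filter (fun e' => L e' = x)).card : ℝ) := by exact_mod_cast h
    rw [mul_div_cancel₀ _ h'.ne']


end H852OF
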