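import Mathlib
import Pool.Agent.Helper852.OF.Defs
import Pool.Agent.Helper852.OF.Kraft
import Pool.Agent.Helper852.OF.SumLabels
import Pool.Agent.Helper852.OF.LightLe

set_option autoImplicit false

open Finset

namespace H852OF






theorem poor_le_heavy_congr {E κ : Type} [Fintype E] [DecidableEq E] [DecidableEq κ] (b : ℕ)
    (K : E → κ) (L : E → ℕ) {e e' : E} (h : K e = K e') : heavy b K L e = heavy b K L e' := by
  unfold heavy cnt cl
  rw [h]

theorem poor_le_pow (x y z u v : ℝ) (M m : ℕ) :
    x ^ M * y ^ M * u ^ m * (z ^ M * v ^ m) = (x * y * z) ^ M * (u * v) ^ m := by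
  rw [mul_pow, mul_pow, mul_pow]; ring

/-- the weight -/
noncomputable def poor_le_w {E κ : Type} [Fintype E] [DecidableEq E] [DecidableEq κ] (b s : ℕ)
    (K : ℕ → E → κ) (L : ℕ → E → ℕ) (k : ℕ) (e : E) (x : ℕ) : ℝ :=
  if s ≤ (heavy b (K k) (L k) e).card then 1 / (b : ℝ) else
    if x ∈ heavy b (K k) (L k) e then 1 / (2 * (s : ℝ)) else 1 / (2 * (b : ℝ))

/-- few elements see few rich levels -/
theorem poor_le {E κ : Type} [Fintype E] [DecidableEq E] [DecidableEq κ] (b s : ℕ) (hb : 1 ≤ b)
    (hs : 1 ≤ s) (K : ℕ → E → κ) (L : ℕ → E → ℕ)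
    (hK : ∀ k e e', K (k+1) e = K (k+1) e' ↔ (K k e = K k e' ∧ L k e = L k e'))
    (hL : ∀ k e, L k e < b) (m M : ℕ) (hM : 1 ≤ M) (hinj : Function.Injective (K m)) :
    (((univ : Finset E).filter (fun e =>
      ((range m).filter (fun k => s ≤ (heavy b (K k) (L k) e).card)).card < M)).card : ℝ) ≤
      (((univ : Finset E).image (K 0)).card : ℝ) * (2 * (b : ℝ) ^ 2) ^ M * (2 * (s : ℝ)) ^ m +
        (m : ℝ) * (Fintype.card E : ℝ) / ((b : ℝ) * (M : ℝ)) := by
  classical
  have hb1 : (1 : ℝ) ≤ b := by exact_mod_cast hb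
  have hs1 : (1 : ℝ) ≤ s := by exact_mod_cast hs
  have hM1 : (1 : ℝ) ≤ M := by exact_mod_cast hM
  set w : ℕ → E → ℝ := fun k e => poor_le_w b s K L k e (L k e) with hw
  have hgc : ∀ k e e', K k e = K k e' → ∀ x, poor_le_w b s K L k e x = poor_le_w b s K L k e' x := by
    intro k e e' h x
    unfold poor_le_w
    rw [poor_le_heavy_congr b (K k) (L k) h]
  have hg0 : ∀ k e x, 0 ≤ poor_le_w b s K L k e x := by
    intro k e x
    unfold poor_le_w
    split_ifs <;> positivity
  have hkr := kraft K (fun k e e' h => ((hK k e e').1 h).1) m hinj w (fun k e => hg0 k e _) ?_ ?_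
  rotate_left
  · intro k e e' h
    obtain ⟨h1, h2⟩ := (hK k e e').1 h
    simp only [hw]
    rw [hgc k e e' h1, h2]
  · intro k e
    have h1 : ∑ e' ∈ cl (K k) e, w k e' / ((cl (K (k+1)) e').card : ℝ) =
        ∑ e' ∈ cl (K k) e, poor_le_w b s K L k e (L k e') / ((cl (K (k+1)) e').card : ℝ) := by
      refine sum_congr rfl fun e' he' => ?_
      have : K k e' = K k e := by simpa [cl] using he'
      simp only [hw]
      rw [hgc k e' e this]
    rw [h1]
    refine (sum_labels b (K (k+1)) (K k) (L k) (hK k) (hL k) (fun x => poor_le_w b s K L k e x)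
      (fun x => hg0 k e x) e).trans ?_
    by_cases hr : s ≤ (heavy b (K k) (L k) e).card
    · have : ∀ x ∈ range b, poor_le_w b s K L k e x = 1 / (b : ℝ) := by
        intro x _
        unfold poor_le_w
        rw [if_pos hr]
      rw [sum_congr rfl this, sum_const, card_range, nsmul_eq_mul]
      field_simp
      exact le_refl _
    · have h2 : ∀ x ∈ range b, poor_le_w b s K L k e x ≤
          (if x ∈ heavy b (K k) (L k) e then 1 / (2 * (s : ℝ)) else 0) + 1 / (2 * (b : ℝ)) := by
        intro x _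
        unfold poor_le_w
        rw [if_neg hr]
        split_ifs
        · have : 0 ≤ 1 / (2 * (b : ℝ)) := by positivity
          linarith
        · linarith
      refine (sum_le_sum h2).trans ?_
      rw [sum_add_distrib, sum_const, card_range, nsmul_eq_mul, ← sum_filter, sum_const, nsmul_eq_mul]
      have h3 : (((range b).filter (fun x => x ∈ heavy b (K k) (L k) e)).card : ℝ) ≤ s := by
        have h4 : ((range b).filter (fun x => x ∈ heavy b (K k) (L k) e)).card ≤
            (heavy b (K k) (L k) e).card := by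
          apply card_le_card
          intro x hx
          exact (mem_filter.1 hx).2
        have h5 : (heavy b (K k) (L k) e).card < s := not_le.1 hr
        exact_mod_cast h4.trans h5.le
      have h6 : (((range b).filter (fun x => x ∈ heavy b (K k) (L k) e)).card : ℝ) * (1 / (2 * (s : ℝ))) ≤
          s * (1 / (2 * (s : ℝ))) := by gcongr
      have h7 : (s : ℝ) * (1 / (2 * (s : ℝ))) = 1 / 2 := by field_simp
      have h8 : (b : ℝ) * (1 / (2 * (b : ℝ))) = 1 / 2 := by field_simp
      linarith
  -- the two parts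
  set rich : ℕ → E → Prop := fun k e => s ≤ (heavy b (K k) (L k) e).card with hrich
  set light : ℕ → E → Prop := fun k e => L k e ∉ heavy b (K k) (L k) e with hlight
  set A : Finset E := univ.filter (fun e => ((range m).filter (fun k => rich k e)).card < M) with hA
  set A1 : Finset E := A.filter (fun e => ((range m).filter (fun k => light k e)).card < M) with hA1
  set A2 : Finset E := univ.filter (fun e => M ≤ ((range m).filter (fun k => light k e)).card) with hA2
  have hsub : A ⊆ A1 ∪ A2 := by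
    intro e he
    rw [mem_union]
    rcases lt_or_ge ((range m).filter (fun k => light k e)).card M with h | h
    · exact Or.inl (mem_filter.2 ⟨he, h⟩)
    · exact Or.inr (mem_filter.2 ⟨mem_univ _, h⟩)
  have hcard : (A.card : ℝ) ≤ A1.card + A2.card := by
    have := (card_le_card hsub).trans (card_union_le _ _)
    exact_mod_cast this
  -- first part
  have hpt : ∀ e ∈ A1, (1 / (b : ℝ)) ^ M * (1 / (2 * (b : ℝ))) ^ M * (1 / (2 * (s : ℝ))) ^ m ≤
      ∏ k ∈ range m, w k e := by
    intro e he
    obtain ⟨he1, he2⟩ := mem_filter.1 he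
    have he3 := (mem_filter.1 he1).2
    have hle : ∀ k ∈ range m, (if rich k e then 1 / (b : ℝ) else 1) *
        (if light k e then 1 / (2 * (b : ℝ)) else 1) * (1 / (2 * (s : ℝ))) ≤ w k e := by
      intro k _
      have i1 : 1 / (b : ℝ) ≤ 1 := by rw [div_le_one (by positivity)]; exact hb1
      have i2 : 1 / (2 * (b : ℝ)) ≤ 1 := by rw [div_le_one (by positivity)]; linarith
      have i3 : 1 / (2 * (s : ℝ)) ≤ 1 := by rw [div_le_one (by positivity)]; linarith
      have j1 : 0 ≤ 1 / (b : ℝ) := by positivity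
      have j2 : 0 ≤ 1 / (2 * (b : ℝ)) := by positivity
      have j3 : 0 ≤ 1 / (2 * (s : ℝ)) := by positivity
      have k2 : (if light k e then 1 / (2 * (b : ℝ)) else 1) ≤ 1 := by split_ifs <;> linarith
      have k2' : 0 ≤ (if light k e then 1 / (2 * (b : ℝ)) else 1) := by split_ifs <;> linarith
      simp only [hw, poor_le_w]
      by_cases hr : rich k e
      · rw [if_pos hr, if_pos (show s ≤ (heavy b (K k) (L k) e).card from hr)]
        calc 1 / (b : ℝ) * (if light k e then 1 / (2 * (b : ℝ)) else 1) * (1 / (2 * (s : ℝ))) ≤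
            1 / (b : ℝ) * 1 * 1 := by gcongr
          _ = _ := by ring
      · rw [if_neg hr, if_neg (show ¬ s ≤ (heavy b (K k) (L k) e).card from hr)]
        by_cases hl : light k e
        · rw [if_pos hl, if_neg (show L k e ∉ heavy b (K k) (L k) e from hl)]
          calc 1 * (1 / (2 * (b : ℝ))) * (1 / (2 * (s : ℝ))) ≤ 1 * (1 / (2 * (b : ℝ))) * 1 := by gcongr
            _ = _ := by ring
        · rw [if_neg hl, if_pos (not_not.1 (show ¬ L k e ∉ heavy b (K k) (L k) e from hl))]
          simp
    refine le_trans ?_ (prod_le_prod (fun k _ => ?_) hle)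
    · rw [prod_mul_distrib, prod_mul_distrib, prod_const, card_range]
      rw [prod_ite, prod_ite]
      simp only [prod_const, one_pow, mul_one]
      have i1 : 1 / (b : ℝ) ≤ 1 := by rw [div_le_one (by positivity)]; exact hb1
      have i2 : 1 / (2 * (b : ℝ)) ≤ 1 := by rw [div_le_one (by positivity)]; linarith
      have p1 : (1 / (b : ℝ)) ^ M ≤ (1 / (b : ℝ)) ^ ((range m).filter (fun k => rich k e)).card :=
        pow_le_pow_of_le_one (by positivity) i1 he3.le
      have p2 : (1 / (2 * (b : ℝ))) ^ M ≤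
          (1 / (2 * (b : ℝ))) ^ ((range m).filter (fun k => light k e)).card :=
        pow_le_pow_of_le_one (by positivity) i2 he2.le
      gcongr
    · split_ifs <;> positivity
  have hpart1 : (A1.card : ℝ) ≤ (((univ : Finset E).image (K 0)).card : ℝ) * (2 * (b : ℝ) ^ 2) ^ M *
      (2 * (s : ℝ)) ^ m := by
    have h1 : (A1.card : ℝ) * ((1 / (b : ℝ)) ^ M * (1 / (2 * (b : ℝ))) ^ M * (1 / (2 * (s : ℝ))) ^ m) ≤
        (((univ : Finset E).image (K 0)).card : ℝ) := by
      rw [← nsmul_eq_mul, ← sum_const]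
      refine (sum_le_sum hpt).trans (le_trans ?_ hkr)
      exact sum_le_sum_of_subset_of_nonneg (subset_univ _) fun e _ _ => prod_nonneg fun k _ => hg0 k e _
    have h2 : ((1 / (b : ℝ)) ^ M * (1 / (2 * (b : ℝ))) ^ M * (1 / (2 * (s : ℝ))) ^ m) *
        ((2 * (b : ℝ) ^ 2) ^ M * (2 * (s : ℝ)) ^ m) = 1 := by
      have e1 : (1 / (b : ℝ)) * (1 / (2 * (b : ℝ))) * (2 * (b : ℝ) ^ 2) = 1 := by field_simp
      have e2 : (1 / (2 * (s : ℝ))) * (2 * (s : ℝ)) = 1 := by field_simp
      calc _ = ((1 / (b : ℝ)) * (1 / (2 * (b : ℝ))) * (2 * (b : ℝ) ^ 2)) ^ M *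
            ((1 / (2 * (s : ℝ))) * (2 * (s : ℝ))) ^ m := by
              exact poor_le_pow _ _ _ _ _ _ _
        _ = 1 := by rw [e1, e2]; simp
    calc (A1.card : ℝ) = (A1.card : ℝ) * (((1 / (b : ℝ)) ^ M * (1 / (2 * (b : ℝ))) ^ M *
          (1 / (2 * (s : ℝ))) ^ m) * ((2 * (b : ℝ) ^ 2) ^ M * (2 * (s : ℝ)) ^ m)) := by rw [h2, mul_one]
      _ = ((A1.card : ℝ) * ((1 / (b : ℝ)) ^ M * (1 / (2 * (b : ℝ))) ^ M *
          (1 / (2 * (s : ℝ))) ^ m)) * ((2 * (b : ℝ) ^ 2) ^ M * (2 * (s : ℝ)) ^ m) := by ring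
      _ ≤ (((univ : Finset E).image (K 0)).card : ℝ) * ((2 * (b : ℝ) ^ 2) ^ M * (2 * (s : ℝ)) ^ m) := by
          gcongr
      _ = _ := by ring
  have hpart2 : (A2.card : ℝ) ≤ (m : ℝ) * (Fintype.card E : ℝ) / ((b : ℝ) * (M : ℝ)) := by
    rw [le_div_iff₀ (by positivity)]
    have h1 : M * A2.card ≤ ∑ e : E, ((range m).filter (fun k => light k e)).card := by
      calc M * A2.card = ∑ e ∈ A2, M := by rw [sum_const, smul_eq_mul, mul_comm]
        _ ≤ ∑ e ∈ A2, ((range m).filter (fun k => light k e)).card :=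
            sum_le_sum fun e he => (mem_filter.1 he).2
        _ ≤ _ := sum_le_sum_of_subset (subset_univ _)
    have h2 : ∑ e : E, ((range m).filter (fun k => light k e)).card =
        ∑ k ∈ range m, ((univ : Finset E).filter (fun e => light k e)).card := by
      simp only [card_filter]
      exact sum_comm
    have h3 : ∀ k ∈ range m, (b : ℝ) * (((univ : Finset E).filter (fun e => light k e)).card : ℝ) ≤
        Fintype.card E := fun k _ => light_le b hb (K k) (L k) (hL k)
    have h4 : (b : ℝ) * ∑ k ∈ range m, (((univ : Finset E).filter (fun e => light k e)).card : ℝ) ≤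
        m * Fintype.card E := by
      rw [mul_sum]
      refine (sum_le_sum h3).trans ?_
      rw [sum_const, card_range, nsmul_eq_mul]
    have h5 : (M : ℝ) * A2.card ≤
        ∑ k ∈ range m, (((univ : Finset E).filter (fun e => light k e)).card : ℝ) := by
      have := h1.trans h2.le
      exact_mod_cast this
    calc (A2.card : ℝ) * ((b : ℝ) * M) = b * (M * A2.card) := by ring
      _ ≤ b * ∑ k ∈ range m, (((univ : Finset E).filter (fun e => light k e)).card : ℝ) := by gcongr
      _ ≤ _ := h4
  linarith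


end H852OF
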