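import Mathlib
import Pool.Agent.Helper852.OF.Defs
import Pool.Agent.Helper852.OF.PoorLe

set_option autoImplicit false

open Finset

namespace H852OF




/-- many pairs of rich levels -/
theorem rich_sum {E κ κ' : Type} [Fintype E] [DecidableEq E] [DecidableEq κ] [DecidableEq κ']
    (b s : ℕ) (hb : 1 ≤ b)
    (hs : 1 ≤ s) (K : ℕ → E → κ) (L : ℕ → E → ℕ)
    (hK : ∀ k e e', K (k+1) e = K (k+1) e' ↔ (K k e = K k e' ∧ L k e = L k e'))
    (hL : ∀ k e, L k e < b) (K' : ℕ → E → κ') (L' : ℕ → E → ℕ)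
    (hK' : ∀ k e e', K' (k+1) e = K' (k+1) e' ↔ (K' k e = K' k e' ∧ L' k e = L' k e'))
    (hL' : ∀ k e, L' k e < b) (m M : ℕ) (hm : 1 ≤ m) (hM : 1 ≤ M) (hbM : 8 * m ≤ b * M)
    (hinj : Function.Injective (K m)) (hinj' : Function.Injective (K' m))
    (h1 : 8 * ((((univ : Finset E).image (K 0)).card : ℝ) * (2 * (b : ℝ) ^ 2) ^ M *
      (2 * (s : ℝ)) ^ m) ≤ (Fintype.card E : ℝ))
    (h2 : 8 * ((((univ : Finset E).image (K' 0)).card : ℝ) * (2 * (b : ℝ) ^ 2) ^ M *
      (2 * (s : ℝ)) ^ m) ≤ (Fintype.card E : ℝ)) :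
    32 / (b : ℝ) ^ 2 * (m : ℝ) ^ 2 * (Fintype.card E : ℝ) ≤ ∑ l ∈ range m, ∑ k ∈ range m,
        (((univ : Finset E).filter (fun e => s ≤ (heavy b (K k) (L k) e).card ∧
          s ≤ (heavy b (K' l) (L' l) e).card)).card : ℝ) := by
  classical
  set N : ℝ := (Fintype.card E : ℝ) with hN
  have hbR : (0 : ℝ) < b := by exact_mod_cast hb
  have hMR : (0 : ℝ) < M := by exact_mod_cast hM
  have hN0 : 0 ≤ N := Nat.cast_nonneg _
  have hbMR : 8 * (m : ℝ) ≤ b * M := by exact_mod_cast hbM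
  have hfrac : (m : ℝ) * N / ((b : ℝ) * (M : ℝ)) ≤ N / 8 := by
    rw [div_le_div_iff₀ (mul_pos hbR hMR) (by norm_num)]
    nlinarith
  let a : E → ℕ := fun e => ((range m).filter (fun k => s ≤ (heavy b (K k) (L k) e).card)).card
  let a' : E → ℕ := fun e => ((range m).filter (fun k => s ≤ (heavy b (K' k) (L' k) e).card)).card
  have p1 : (((univ : Finset E).filter (fun e => a e < M)).card : ℝ) ≤ N / 4 := by
    have := poor_le b s hb hs K L hK hL m M hM hinj
    change (((univ : Finset E).filter (fun e => a e < M)).card : ℝ) ≤ _ at this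
    linarith
  have p2 : (((univ : Finset E).filter (fun e => a' e < M)).card : ℝ) ≤ N / 4 := by
    have := poor_le b s hb hs K' L' hK' hL' m M hM hinj'
    change (((univ : Finset E).filter (fun e => a' e < M)).card : ℝ) ≤ _ at this
    linarith
  set W : Finset E := (univ : Finset E).filter (fun e => M ≤ a e ∧ M ≤ a' e) with hW
  have hcov : (univ : Finset E) ⊆ W ∪ ((univ : Finset E).filter (fun e => a e < M) ∪
      (univ : Finset E).filter (fun e => a' e < M)) := by
    intro e _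
    simp only [hW, mem_union, mem_filter, mem_univ, true_and]
    by_cases h : a e < M
    · exact Or.inr (Or.inl h)
    · by_cases h' : a' e < M
      · exact Or.inr (Or.inr h')
      · exact Or.inl ⟨not_lt.1 h, not_lt.1 h'⟩
  have hWc : N / 2 ≤ (W.card : ℝ) := by
    have h3 := (card_le_card hcov).trans ((card_union_le _ _).trans
      (Nat.add_le_add_left (card_union_le _ _) _))
    rw [card_univ] at h3
    have h4 : N ≤ (W.card : ℝ) + ((((univ : Finset E).filter (fun e => a e < M)).card : ℝ) +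
        (((univ : Finset E).filter (fun e => a' e < M)).card : ℝ)) := by
      rw [hN]
      exact_mod_cast h3
    linarith
  have hsum : ∑ l ∈ range m, ∑ k ∈ range m,
        (((univ : Finset E).filter (fun e => s ≤ (heavy b (K k) (L k) e).card ∧
          s ≤ (heavy b (K' l) (L' l) e).card)).card : ℝ) = ∑ e, (a e : ℝ) * (a' e : ℝ) := by
    have e1 : ∀ e, (a e : ℝ) * (a' e : ℝ) = ∑ l ∈ range m, ∑ k ∈ range m,
        (if s ≤ (heavy b (K k) (L k) e).card ∧ s ≤ (heavy b (K' l) (L' l) e).card then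
          (1 : ℝ) else 0) := by
      intro e
      simp only [a, a', Finset.natCast_card_filter]
      rw [mul_comm, sum_mul_sum]
      refine sum_congr rfl fun l _ => sum_congr rfl fun k _ => ?_
      by_cases h : s ≤ (heavy b (K k) (L k) e).card <;>
        by_cases h' : s ≤ (heavy b (K' l) (L' l) e).card <;> simp [h, h']
    simp only [e1, Finset.natCast_card_filter]
    symm
    rw [sum_comm]
    exact sum_congr rfl fun l _ => sum_comm
  rw [hsum]
  have hlow : ∑ e ∈ W, (M : ℝ) * (M : ℝ) ≤ ∑ e, (a e : ℝ) * (a' e : ℝ) := by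
    refine (sum_le_sum fun e he => ?_).trans
      (sum_le_sum_of_subset_of_nonneg (subset_univ W) fun e _ _ => by positivity)
    have := (mem_filter.1 he).2
    have h5 : (M : ℝ) ≤ a e := by exact_mod_cast this.1
    have h6 : (M : ℝ) ≤ a' e := by exact_mod_cast this.2
    exact mul_le_mul h5 h6 hMR.le (Nat.cast_nonneg _)
  rw [sum_const, nsmul_eq_mul] at hlow
  refine le_trans ?_ hlow
  have hM8 : 8 * (m : ℝ) / b ≤ M := by
    rw [div_le_iff₀ hbR]; linarith
  have hM2 : 64 * (m : ℝ) ^ 2 / b ^ 2 ≤ (M : ℝ) * M := by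
    have h7 : (8 * (m : ℝ) / b) * (8 * (m : ℝ) / b) ≤ M * M :=
      mul_le_mul hM8 hM8 (by positivity) hMR.le
    calc 64 * (m : ℝ) ^ 2 / b ^ 2 = (8 * (m : ℝ) / b) * (8 * (m : ℝ) / b) := by
          field_simp; ring
      _ ≤ _ := h7
  calc 32 / (b : ℝ) ^ 2 * (m : ℝ) ^ 2 * N = N / 2 * (64 * (m : ℝ) ^ 2 / b ^ 2) := by
        field_simp; ring
    _ ≤ (W.card : ℝ) * ((M : ℝ) * M) :=
        mul_le_mul hWc hM2 (by positivity) (Nat.cast_nonneg _)


end H852OF
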