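import Mathlib
import Pool.Agent.Helper852.OF.Defs
import Pool.Agent.Helper852.OF.Core
import Pool.Agent.Helper852.OF.RichSum
import Pool.Agent.Helper852.OF.Embed
import Pool.Agent.Helper852.OF.Numeric

set_option autoImplicit false

open Finset

namespace H852OF

theorem digit_iff (b t v v' : ℕ) : (v / b ^ t = v' / b ^ t) ↔
    (v / b ^ (t+1) = v' / b ^ (t+1) ∧ v / b ^ t % b = v' / b ^ t % b) := by
  rw [pow_succ, ← Nat.div_div_eq_div_mul, ← Nat.div_div_eq_div_mul]
  constructor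
  · intro h; rw [h]; exact ⟨rfl, rfl⟩
  · rintro ⟨h1, h2⟩
    rw [← Nat.div_add_mod (v / b ^ t) b, ← Nat.div_add_mod (v' / b ^ t) b, h1, h2]

theorem lt_of_digit (b t v v' : ℕ) (h1 : v / b ^ (t+1) = v' / b ^ (t+1))
    (h2 : v / b ^ t % b < v' / b ^ t % b) : v < v' := by
  rw [pow_succ, ← Nat.div_div_eq_div_mul, ← Nat.div_div_eq_div_mul] at h1
  have h3 : v / b ^ t < v' / b ^ t := by
    rw [← Nat.div_add_mod (v / b ^ t) b, ← Nat.div_add_mod (v' / b ^ t) b, h1]
    omega
  by_contra hcon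
  have := Nat.div_le_div_right (c := b ^ t) (not_lt.1 hcon)
  omega

theorem div_eq_of_div_eq (b s t v v' : ℕ) (hst : s ≤ t) (h : v / b ^ s = v' / b ^ s) :
    v / b ^ t = v' / b ^ t := by
  obtain ⟨r, rfl⟩ := Nat.exists_eq_add_of_le hst
  rw [pow_add, ← Nat.div_div_eq_div_mul, ← Nat.div_div_eq_div_mul, h]

/-- the edges of `G`, written with the smaller end first -/
abbrev EG {n : ℕ} (G : SimpleGraph (Fin n)) : Type :=
  {p : Fin n × Fin n // G.Adj p.1 p.2 ∧ p.1 < p.2}

noncomputable instance instFintypeEG {n : ℕ} (G : SimpleGraph (Fin n)) : Fintype (EG G) :=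
  Fintype.ofFinite _

theorem card_EG {n : ℕ} (G : SimpleGraph (Fin n)) :
    G.edgeSet.ncard = Fintype.card (EG G) := by
  classical
  rw [← Nat.card_coe_set_eq, ← Nat.card_eq_fintype_card]
  symm
  refine Nat.card_congr (Equiv.ofBijective (fun e : EG G => (⟨s(e.1.1, e.1.2), e.2.1⟩ : G.edgeSet)) ⟨?_, ?_⟩)
  · rintro ⟨⟨a, b⟩, h1, h2⟩ ⟨⟨c, d⟩, h3, h4⟩ h
    simp only [Subtype.mk.injEq, Sym2.eq_iff] at h
    rcases h with ⟨h5, h6⟩ | ⟨h5, h6⟩
    · subst h5; subst h6; rfl
    · exfalso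
      simp only at h1 h2 h3 h4
      subst h5; subst h6
      exact absurd h2 (not_lt.2 h4.le)
  · rintro ⟨e, he⟩
    induction e with
    | h a b =>
      have hab : G.Adj a b := he
      rcases lt_trichotomy a b with h | h | h
      · exact ⟨⟨(a, b), hab, h⟩, rfl⟩
      · exact absurd h hab.ne
      · exact ⟨⟨(b, a), hab.symm, h⟩, Subtype.ext Sym2.eq_swap⟩

def Kr {n : ℕ} (G : SimpleGraph (Fin n)) (b m : ℕ) (k : ℕ) (e : EG G) : ℕ × ℕ :=
  (e.1.1.val, e.1.2.val / b ^ (m - k))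
def Lr {n : ℕ} (G : SimpleGraph (Fin n)) (b m : ℕ) (k : ℕ) (e : EG G) : ℕ :=
  e.1.2.val / b ^ (m - k - 1) % b
def Kc {n : ℕ} (G : SimpleGraph (Fin n)) (b m : ℕ) (k : ℕ) (e : EG G) : ℕ × ℕ :=
  (e.1.2.val, e.1.1.val / b ^ (m - k))
def Lc {n : ℕ} (G : SimpleGraph (Fin n)) (b m : ℕ) (k : ℕ) (e : EG G) : ℕ :=
  e.1.1.val / b ^ (m - k - 1) % b

theorem level_iff (b m k v v' : ℕ) : (v / b ^ (m - (k+1)) = v' / b ^ (m - (k+1))) ↔
    (v / b ^ (m - k) = v' / b ^ (m - k) ∧ v / b ^ (m - k - 1) % b = v' / b ^ (m - k - 1) % b) := by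
  rcases Nat.lt_or_ge k m with h | h
  · have e1 : m - k = (m - (k+1)) + 1 := by omega
    have e2 : m - k - 1 = m - (k+1) := by omega
    rw [e2, e1]
    exact digit_iff b _ v v'
  · have e1 : m - (k+1) = 0 := by omega
    have e2 : m - k = 0 := by omega
    rw [e1, e2]
    constructor
    · intro h; refine ⟨h, ?_⟩; simp only [Nat.zero_sub]; rw [h]
    · exact fun h => h.1

theorem Kr_iff {n : ℕ} (G : SimpleGraph (Fin n)) (b m : ℕ) (k : ℕ) (e e' : EG G) :
    Kr G b m (k+1) e = Kr G b m (k+1) e' ↔ (Kr G b m k e = Kr G b m k e' ∧ Lr G b m k e = Lr G b m k e') := by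
  unfold Kr Lr
  rw [Prod.mk.injEq, Prod.mk.injEq, level_iff]
  tauto

theorem Kc_iff {n : ℕ} (G : SimpleGraph (Fin n)) (b m : ℕ) (k : ℕ) (e e' : EG G) :
    Kc G b m (k+1) e = Kc G b m (k+1) e' ↔ (Kc G b m k e = Kc G b m k e' ∧ Lc G b m k e = Lc G b m k e') := by
  unfold Kc Lc
  rw [Prod.mk.injEq, Prod.mk.injEq, level_iff]
  tauto

theorem Kr_inj {n : ℕ} (G : SimpleGraph (Fin n)) (b m : ℕ) : Function.Injective (Kr G b m m) := by
  intro e e' h
  unfold Kr at h
  rw [Prod.mk.injEq, Nat.sub_self, pow_zero, Nat.div_one, Nat.div_one] at h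
  apply Subtype.ext
  exact Prod.ext (Fin.ext h.1) (Fin.ext h.2)

theorem Kc_inj {n : ℕ} (G : SimpleGraph (Fin n)) (b m : ℕ) : Function.Injective (Kc G b m m) := by
  intro e e' h
  unfold Kc at h
  rw [Prod.mk.injEq, Nat.sub_self, pow_zero, Nat.div_one, Nat.div_one] at h
  apply Subtype.ext
  exact Prod.ext (Fin.ext h.2) (Fin.ext h.1)

theorem Kr_image {n : ℕ} (G : SimpleGraph (Fin n)) (b m : ℕ) (hn : n ≤ b ^ m) :
    ((univ : Finset (EG G)).image (Kr G b m 0)).card ≤ n := by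
  have h : (univ : Finset (EG G)).image (Kr G b m 0) ⊆ (range n).image (fun i => (i, 0)) := by
    intro x hx
    rw [Finset.mem_image] at hx
    obtain ⟨e, _, rfl⟩ := hx
    rw [Finset.mem_image]
    refine ⟨e.1.1.val, Finset.mem_range.2 e.1.1.isLt, ?_⟩
    unfold Kr
    rw [Nat.sub_zero, Nat.div_eq_of_lt (lt_of_lt_of_le e.1.2.isLt hn)]
  exact (Finset.card_le_card h).trans (Finset.card_image_le.trans (by rw [Finset.card_range]))

theorem Kc_image {n : ℕ} (G : SimpleGraph (Fin n)) (b m : ℕ) (hn : n ≤ b ^ m) :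
    ((univ : Finset (EG G)).image (Kc G b m 0)).card ≤ n := by
  have h : (univ : Finset (EG G)).image (Kc G b m 0) ⊆ (range n).image (fun i => (i, 0)) := by
    intro x hx
    rw [Finset.mem_image] at hx
    obtain ⟨e, _, rfl⟩ := hx
    rw [Finset.mem_image]
    refine ⟨e.1.2.val, Finset.mem_range.2 e.1.2.isLt, ?_⟩
    unfold Kc
    rw [Nat.sub_zero, Nat.div_eq_of_lt (lt_of_lt_of_le e.1.1.isLt hn)]
  exact (Finset.card_le_card h).trans (Finset.card_image_le.trans (by rw [Finset.card_range]))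

theorem finish {n kk b m l k q : ℕ} (G : SimpleGraph (Fin n))
    (F : SimpleGraph (Fin kk)) (hF : F.IsAcyclic)
    (hq : ∀ i j : Fin kk, F.Adj i j → (i.val < q ↔ q ≤ j.val)) (hl : l < m) (hk : k < m)
    (hlk : l ≠ k) (S S' : Finset ℕ) (hs : kk + 1 ≤ S.card) (hs' : kk + 1 ≤ S'.card)
    (U : ℕ → Finset (EG G)) (hU : (U kk).Nonempty) (hmono : ∀ d, U (d+1) ⊆ U d)
    (h1 : ∀ d, ∀ e ∈ U (d+1), ∀ x ∈ S, ∃ e' ∈ U d, Kr G b m k e' = Kr G b m k e ∧ Lr G b m k e' = x)
    (h2 : ∀ d, ∀ e ∈ U (d+1), ∀ z ∈ S', ∃ e' ∈ U d, Kc G b m l e' = Kc G b m l e ∧ Lc G b m l e' = z) :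
    ∃ f : Fin kk → Fin n, StrictMono f ∧ ∀ i j : Fin kk, F.Adj i j → G.Adj (f i) (f j) := by
  classical
  obtain ⟨e0, he0⟩ := hU
  set y1 := e0.1.2.val / b ^ (m - l - 1) % b with hy1
  set y2 := e0.1.1.val / b ^ (m - k - 1) % b with hy2
  have c1 : kk ≤ (S'.erase y1).card := by
    have := Finset.pred_card_le_card_erase (s := S') (a := y1); omega
  have c2 : kk ≤ (S.erase y2).card := by
    have := Finset.pred_card_le_card_erase (s := S) (a := y2); omega
  set lab : Fin kk → ℕ := fun i => if i.val < q then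
      (S'.erase y1).orderEmbOfFin rfl ⟨i.val, lt_of_lt_of_le i.isLt c1⟩
    else (S.erase y2).orderEmbOfFin rfl ⟨i.val, lt_of_lt_of_le i.isLt c2⟩ with hlab
  have hlabL : ∀ i : Fin kk, i.val < q → lab i ∈ S'.erase y1 := by
    intro i hi
    simp only [hlab, if_pos hi]
    exact Finset.orderEmbOfFin_mem _ _ _
  have hlabR : ∀ i : Fin kk, ¬ i.val < q → lab i ∈ S.erase y2 := by
    intro i hi
    simp only [hlab, if_neg hi]
    exact Finset.orderEmbOfFin_mem _ _ _
  obtain ⟨φ, hblk, hφL, hφR, hφadj⟩ := embed F hF (fun i => i.val < q)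
    (by intro i j hij; rw [hq i j hij]; simp) (row := fun e : EG G => e.1.1) (col := fun e : EG G => e.1.2)
    (blk := fun e : EG G => (e.1.1.val / b ^ (m - l), e.1.2.val / b ^ (m - k)))
    (L := Lr G b m k) (L' := Lc G b m l) S S' U hmono
    (by
      intro d e he x hx
      obtain ⟨e', he', hk1, hk2⟩ := h1 d e he x hx
      unfold Kr at hk1
      rw [Prod.mk.injEq] at hk1
      have h3 : e'.1.1 = e.1.1 := Fin.ext hk1.1
      exact ⟨e', he', h3, by rw [h3, hk1.2], hk2⟩)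
    (by
      intro d e he z hz
      obtain ⟨e', he', hk1, hk2⟩ := h2 d e he z hz
      unfold Kc at hk1
      rw [Prod.mk.injEq] at hk1
      have h3 : e'.1.2 = e.1.2 := Fin.ext hk1.1
      exact ⟨e', he', h3, by rw [h3, hk1.2], hk2⟩)
    e0 he0 lab (fun i hi => Finset.mem_of_mem_erase (hlabL i hi))
    (fun i hi => Finset.mem_of_mem_erase (hlabR i hi))
  have hbu : ∀ i, (φ i).1.1.val / b ^ (m - l) = e0.1.1.val / b ^ (m - l) :=
    fun i => (Prod.mk.inj (hblk i)).1
  have hbv : ∀ i, (φ i).1.2.val / b ^ (m - k) = e0.1.2.val / b ^ (m - k) :=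
    fun i => (Prod.mk.inj (hblk i)).2
  have hlt : ∀ i, (φ i).1.1.val < (φ i).1.2.val := fun i => (φ i).2.2
  have hml : m - l = (m - l - 1) + 1 := by omega
  have hmk : m - k = (m - k - 1) + 1 := by omega
  refine ⟨fun i => if i.val < q then (φ i).1.1 else (φ i).1.2, ?_, ?_⟩
  · intro i j hij
    have hij' : i.val < j.val := hij
    by_cases hi : i.val < q
    · by_cases hj : j.val < q
      · simp only [if_pos hi, if_pos hj]
        rw [Fin.lt_def]
        apply lt_of_digit b (m - l - 1)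
        · rw [← hml, hbu i, hbu j]
        · have e1 := hφL i hi
          have e2 := hφL j hj
          unfold Lc at e1 e2
          rw [e1, e2]
          simp only [hlab, if_pos hi, if_pos hj]
          exact (Finset.orderEmbOfFin _ _).strictMono hij'
      · simp only [if_pos hi, if_neg hj]
        rw [Fin.lt_def]
        rcases lt_or_gt_of_ne hlk with hlk' | hlk'
        · -- l < k
          have a1 : (φ i).1.2.val / b ^ (m - l - 1) = e0.1.2.val / b ^ (m - l - 1) :=
            div_eq_of_div_eq b (m - k) (m - l - 1) _ _ (by omega) (hbv i)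
          have a2 : (φ j).1.2.val / b ^ (m - l - 1) = e0.1.2.val / b ^ (m - l - 1) :=
            div_eq_of_div_eq b (m - k) (m - l - 1) _ _ (by omega) (hbv j)
          have a3 : (φ i).1.1.val / b ^ (m - l - 1) ≤ (φ i).1.2.val / b ^ (m - l - 1) :=
            Nat.div_le_div_right (hlt i).le
          have a4 : (φ i).1.1.val / b ^ (m - l - 1) ≠ (φ i).1.2.val / b ^ (m - l - 1) := by
            intro h
            have e1 := hφL i hi
            unfold Lc at e1
            rw [h, a1, ← hy1] at e1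
            exact (Finset.mem_erase.1 (hlabL i hi)).1 e1.symm
          by_contra hcon
          have := Nat.div_le_div_right (c := b ^ (m - l - 1)) (not_lt.1 hcon)
          omega
        · -- k < l
          have a1 : (φ i).1.1.val / b ^ (m - k - 1) = e0.1.1.val / b ^ (m - k - 1) :=
            div_eq_of_div_eq b (m - l) (m - k - 1) _ _ (by omega) (hbu i)
          have a2 : (φ j).1.1.val / b ^ (m - k - 1) = e0.1.1.val / b ^ (m - k - 1) :=
            div_eq_of_div_eq b (m - l) (m - k - 1) _ _ (by omega) (hbu j)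
          have a3 : (φ j).1.1.val / b ^ (m - k - 1) ≤ (φ j).1.2.val / b ^ (m - k - 1) :=
            Nat.div_le_div_right (hlt j).le
          have a4 : (φ j).1.1.val / b ^ (m - k - 1) ≠ (φ j).1.2.val / b ^ (m - k - 1) := by
            intro h
            have e1 := hφR j hj
            unfold Lr at e1
            rw [← h, a2, ← hy2] at e1
            exact (Finset.mem_erase.1 (hlabR j hj)).1 e1.symm
          by_contra hcon
          have := Nat.div_le_div_right (c := b ^ (m - k - 1)) (not_lt.1 hcon)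
          omega
    · have hj : ¬ j.val < q := by omega
      simp only [if_neg hi, if_neg hj]
      rw [Fin.lt_def]
      apply lt_of_digit b (m - k - 1)
      · rw [← hmk, hbv i, hbv j]
      · have e1 := hφR i hi
        have e2 := hφR j hj
        unfold Lr at e1 e2
        rw [e1, e2]
        simp only [hlab, if_neg hi, if_neg hj]
        exact (Finset.orderEmbOfFin _ _).strictMono hij'
  · have key : ∀ i j : Fin kk, F.Adj i j → i.val < q → G.Adj (φ i).1.1 (φ j).1.2 := by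
      intro i j hij hi
      obtain ⟨e, he1, he2⟩ := hφadj i j hij hi
      rw [← he1, ← he2]
      exact e.2.1
    intro i j hij
    by_cases hi : i.val < q
    · have hj : ¬ j.val < q := by have := (hq i j hij).1 hi; omega
      simp only [if_pos hi, if_neg hj]
      exact key i j hij hi
    · have hj : j.val < q := by
        by_contra hcon
        exact hi ((hq i j hij).2 (by omega))
      simp only [if_neg hi, if_pos hj]
      exact (key j i hij.symm hj).symm

theorem main (kk : ℕ) (F : SimpleGraph (Fin kk)) (hF : F.IsAcyclic)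
    (hq : ∃ q : ℕ, ∀ i j : Fin kk, F.Adj i j → (i.val < q ↔ q ≤ j.val))
    (ε : ℝ) (hε : 0 < ε) : ∃ N : ℕ, ∀ n : ℕ, N ≤ n → ∀ G : SimpleGraph (Fin n),
        (¬ ∃ f : Fin kk → Fin n, StrictMono f ∧ ∀ i j : Fin kk, F.Adj i j → G.Adj (f i) (f j)) →
        (G.edgeSet.ncard : ℝ) ≤ (n : ℝ) ^ (1 + ε) := by
  classical
  obtain ⟨q, hq⟩ := hq
  obtain ⟨b, hb2, m0, hnum⟩ := numeric ε hε (kk + 1) (by omega)
  have hb1 : 1 ≤ b := by omega
  obtain ⟨m1, hcore⟩ := core b (kk + 1) kk hb1 (32 / (b : ℝ) ^ 2) (by positivity)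
  refine ⟨b ^ (m0 + m1 + 1) + 2, ?_⟩
  intro n hn G hno
  by_contra hcon
  push Not at hcon
  set m := Nat.clog b n with hm
  have hbb : 1 < b := by omega
  have hn1 : 1 < n := by
    have : 0 < b ^ (m0 + m1 + 1) := by positivity
    omega
  have hmlt : b ^ (m - 1) < n := by
    have := Nat.pow_pred_clog_lt_self hbb hn1
    simpa using this
  have hmle : n ≤ b ^ m := Nat.le_pow_clog hbb n
  have hmbig : m0 + m1 + 1 ≤ m := by
    by_contra hlt
    have h3 : b ^ m ≤ b ^ (m0 + m1 + 1) := Nat.pow_le_pow_right hb1 (by omega)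
    omega
  have hnumm := hnum m n (by omega) hmlt hmle
  rw [card_EG G] at hcon
  have hcard : 8 * ((n : ℝ) * (2 * (b : ℝ) ^ 2) ^ (8 * m / b + 1) * (2 * ((kk + 1 : ℕ) : ℝ)) ^ m) ≤
      (Fintype.card (EG G) : ℝ) := hnumm.trans hcon.le
  have hn0 : (0:ℝ) ≤ (n : ℝ) ^ (1 + ε) := Real.rpow_nonneg (Nat.cast_nonneg n) _
  have hpos : 0 < Fintype.card (EG G) := by
    have : (0:ℝ) < (Fintype.card (EG G) : ℝ) := lt_of_le_of_lt hn0 hcon
    exact_mod_cast this
  have : Nonempty (EG G) := Fintype.card_pos_iff.1 hpos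
  have hI1 : (((univ : Finset (EG G)).image (Kr G b m 0)).card : ℝ) ≤ n := by
    exact_mod_cast Kr_image G b m hmle
  have hI2 : (((univ : Finset (EG G)).image (Kc G b m 0)).card : ℝ) ≤ n := by
    exact_mod_cast Kc_image G b m hmle
  have hW : (0:ℝ) ≤ (2 * (b : ℝ) ^ 2) ^ (8 * m / b + 1) := by positivity
  have hW2 : (0:ℝ) ≤ (2 * ((kk + 1 : ℕ) : ℝ)) ^ m := by positivity
  have hrich := rich_sum b (kk + 1) hb1 (by omega) (Kr G b m) (Lr G b m) (Kr_iff G b m)
    (fun k e => Nat.mod_lt _ (by omega)) (Kc G b m) (Lc G b m) (Kc_iff G b m)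
    (fun k e => Nat.mod_lt _ (by omega)) m (8 * m / b + 1) (by omega) (Nat.le_add_left 1 _)
    (by
      have := Nat.div_add_mod (8 * m) b
      have h4 := Nat.mod_lt (8 * m) (show 0 < b by omega)
      rw [Nat.mul_add, Nat.mul_one]
      omega)
    (Kr_inj G b m) (Kc_inj G b m)
    (le_trans (by
      have : (((univ : Finset (EG G)).image (Kr G b m 0)).card : ℝ) * (2 * (b : ℝ) ^ 2) ^ (8 * m / b + 1) *
        (2 * ((kk + 1 : ℕ) : ℝ)) ^ m ≤ (n : ℝ) * (2 * (b : ℝ) ^ 2) ^ (8 * m / b + 1) *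
        (2 * ((kk + 1 : ℕ) : ℝ)) ^ m :=
        mul_le_mul_of_nonneg_right (mul_le_mul_of_nonneg_right hI1 hW) hW2
      linarith) hcard)
    (le_trans (by
      have : (((univ : Finset (EG G)).image (Kc G b m 0)).card : ℝ) * (2 * (b : ℝ) ^ 2) ^ (8 * m / b + 1) *
        (2 * ((kk + 1 : ℕ) : ℝ)) ^ m ≤ (n : ℝ) * (2 * (b : ℝ) ^ 2) ^ (8 * m / b + 1) *
        (2 * ((kk + 1 : ℕ) : ℝ)) ^ m :=
        mul_le_mul_of_nonneg_right (mul_le_mul_of_nonneg_right hI2 hW) hW2
      linarith) hcard)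
  obtain ⟨l, k, hl, hk, hlk, S, S', _, _, hs, hs', U, hU, hmono, h1, h2⟩ :=
    hcore m (by omega) (EG G) (ℕ × ℕ) (ℕ × ℕ) (Kr G b m) (Lr G b m) (Kr_iff G b m)
      (Kc G b m) (Lc G b m) (Kc_iff G b m) hrich
  exact hno (finish G F hF hq hl hk hlk S S' hs hs' U hU hmono h1 h2)

end H852OF
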